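import Pool.Agent.MP_a3a891_gt.H97.Basic
import Pool.Agent.MP_a3a891_gt.H97.Cross

/-! Local separating points in the sense of Whyburn: general lemmas. -/

open Set Topology Filter Metric

namespace Pool.Agent.MP_a3a891_gt.H72

open Pool.Agent.MP_a3a891_gt.H97

section
variable {X : Type} [MetricSpace X]

/-- Local separating point of `C` in the sense of Whyburn, written in the ambient space. -/
def LW (C : Set X) (p : X) : Prop :=
  ∃ V, IsOpen V ∧ p ∈ V ∧ ∃ A B, (C ∩ V) \ {p} = A ∪ B ∧ Disjoint (closure A) B ∧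
    Disjoint A (closure B) ∧ (A ∩ connectedComponentIn (C ∩ V) p).Nonempty ∧
    (B ∩ connectedComponentIn (C ∩ V) p).Nonempty

theorem lw_of_closed {C V Y Y' : Set X} {p : X} (hV : IsOpen V) (hp : p ∈ V) (hY : IsClosed Y)
    (hY' : IsClosed Y') (hcov : C ∩ V ⊆ Y ∪ Y') (hint : ∀ z ∈ C ∩ V, z ∈ Y → z ∈ Y' → z = p)
    (h1 : ((connectedComponentIn (C ∩ V) p \ {p}) ∩ Y).Nonempty)
    (h2 : ((connectedComponentIn (C ∩ V) p \ {p}) ∩ Y').Nonempty) : LW C p := by
  refine ⟨V, hV, hp, ((C ∩ V) \ {p}) ∩ Y, ((C ∩ V) \ {p}) ∩ Y', ?_, ?_, ?_, ?_, ?_⟩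
  · rw [← inter_union_distrib_left, inter_eq_left.2 (sdiff_subset.trans hcov)]
  · exact disjoint_left.2 fun z hz hz' => hz'.1.2
      (hint z hz'.1.1 (closure_minimal inter_subset_right hY hz) hz'.2)
  · exact disjoint_left.2 fun z hz hz' => hz.1.2
      (hint z hz.1.1 hz.2 (closure_minimal inter_subset_right hY' hz'))
  · obtain ⟨z, hz, hz'⟩ := h1
    exact ⟨z, ⟨⟨connectedComponentIn_subset _ _ hz.1, hz.2⟩, hz'⟩, hz.1⟩
  · obtain ⟨z, hz, hz'⟩ := h2
    exact ⟨z, ⟨⟨connectedComponentIn_subset _ _ hz.1, hz.2⟩, hz'⟩, hz.1⟩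

theorem lw_of_two {C Y Y' : Set X} (hY : IsCompact Y) (hY' : IsCompact Y') (hcov : C = Y ∪ Y')
    {x x' : X} (hint : Y ∩ Y' ⊆ {x, x'}) (hx : x ∈ Y) (hx' : x ∈ Y')
    (h1 : ∃ w ∈ connectedComponentIn Y x, w ≠ x) (h2 : ∃ w ∈ connectedComponentIn Y' x, w ≠ x) :
    LW C x := by
  have hTc : IsClosed ({x'} \ {x} : Set X) := (Set.toFinite _).isClosed
  have hxV : x ∈ ({x'} \ {x} : Set X)ᶜ := fun h => h.2 rfl
  have aux : ∀ Z : Set X, IsCompact Z → Z ⊆ C → x ∈ Z →
      (∃ w ∈ connectedComponentIn Z x, w ≠ x) →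
      ((connectedComponentIn (C ∩ ({x'} \ {x})ᶜ) x \ {x}) ∩ Z).Nonempty := by
    rintro Z hZ hZC hxZ ⟨w, hw, hwx⟩
    obtain ⟨v, hv, hvx⟩ := small_point (isCompact_cc hZ x) isPreconnected_connectedComponentIn
      (mem_connectedComponentIn hxZ) hw hwx hTc.isOpen_compl hxV
    have hs := connectedComponentIn_subset Z x
    exact ⟨v, ⟨connectedComponentIn_mono _ (inter_subset_inter_left _ (hs.trans hZC)) hv, hvx⟩,
      hs (connectedComponentIn_subset _ _ hv).1⟩
  refine lw_of_closed hTc.isOpen_compl hxV hY.isClosed hY'.isClosed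
    (fun z hz => hcov ▸ hz.1) (fun z hz h h' => ?_)
    (aux Y hY (hcov ▸ subset_union_left) hx h1) (aux Y' hY' (hcov ▸ subset_union_right) hx' h2)
  rcases hint ⟨h, h'⟩ with e | e
  · exact e
  · by_contra hne
    exact hz.2 ⟨e, hne⟩

/-- If two points separate a continuum, one of them is a local separating point. -/
theorem two_pointW {C Y Y' : Set X} (hC : IsPreconnected C) (hY : IsCompact Y)
    (hY' : IsCompact Y') (hcov : C = Y ∪ Y') {x x' : X} (hint : Y ∩ Y' ⊆ {x, x'})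
    {w w' : X} (hw : w ∈ Y) (hw' : w' ∈ Y') (hwn : w ∉ ({x, x'} : Set X))
    (hwn' : w' ∉ ({x, x'} : Set X)) : (x ∈ C ∧ LW C x) ∨ (x' ∈ C ∧ LW C x') := by
  have hYC : Y ⊆ C := hcov ▸ subset_union_left
  have hYC' : Y' ⊆ C := hcov ▸ subset_union_right
  have b1 : ∀ u ∈ Y, ∃ p ∈ Y ∩ Y', u ∈ connectedComponentIn Y p := by
    intro u hu
    obtain ⟨p, hp, hp'⟩ := bump hC hY hY'.isClosed hcov.subset (hYC hu) hu ⟨w', hYC' hw', hw'⟩
    refine ⟨p, ⟨connectedComponentIn_subset _ _ hp, hp'⟩, ?_⟩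
    rw [← connectedComponentIn_eq hp]
    exact mem_connectedComponentIn hu
  have b2 : ∀ u ∈ Y', ∃ p ∈ Y ∩ Y', u ∈ connectedComponentIn Y' p := by
    intro u hu
    obtain ⟨p, hp, hp'⟩ := bump hC hY' hY.isClosed (by rw [union_comm]; exact hcov.subset)
      (hYC' hu) hu ⟨w, hYC hw, hw⟩
    refine ⟨p, ⟨hp', connectedComponentIn_subset _ _ hp⟩, ?_⟩
    rw [← connectedComponentIn_eq hp]
    exact mem_connectedComponentIn hu
  by_contra hcon
  have key : ∀ p ∈ Y ∩ Y', (∃ u ∈ connectedComponentIn Y p, u ≠ p) →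
      (∃ u ∈ connectedComponentIn Y' p, u ≠ p) → False := by
    intro p hp h1 h2
    apply hcon
    rcases hint hp with rfl | rfl
    · exact Or.inl ⟨hYC hp.1, lw_of_two hY hY' hcov hint hp.1 hp.2 h1 h2⟩
    · exact Or.inr ⟨hYC hp.1, lw_of_two hY hY' hcov (by rwa [pair_comm]) hp.1 hp.2 h1 h2⟩
  obtain ⟨p, hp, hwp⟩ := b1 w hw
  obtain ⟨p', hp', hwp'⟩ := b2 w' hw'
  have n1 : ∃ u ∈ connectedComponentIn Y p, u ≠ p := ⟨w, hwp, fun h => hwn (h ▸ hint hp)⟩
  have n2 : ∃ u ∈ connectedComponentIn Y' p', u ≠ p' := ⟨w', hwp', fun h => hwn' (h ▸ hint hp')⟩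
  have hpp : p ≠ p' := fun h => key p hp n1 (h ▸ n2)
  have hall : ∀ q ∈ Y ∩ Y', q = p ∨ q = p' := by
    intro q hq
    rcases hint hq with h | h <;> rcases hint hp with h1 | h1 <;> rcases hint hp' with h2 | h2 <;>
      simp_all
  have t1 : ∀ u ∈ connectedComponentIn Y' p, u = p := fun u hu => by
    by_contra h; exact key p hp n1 ⟨u, hu, h⟩
  have t2 : ∀ u ∈ connectedComponentIn Y p', u = p' := fun u hu => by
    by_contra h; exact key p' hp' ⟨u, hu, h⟩ n2
  obtain ⟨z, -, hz1, hz2⟩ := meet_closed hC (isClosed_cc hY.isClosed p)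
    (isClosed_cc hY'.isClosed p') (fun u hu => by
      rw [hcov] at hu
      rcases hu with hu | hu
      · obtain ⟨q, hq, huq⟩ := b1 u hu
        rcases hall q hq with rfl | rfl
        · exact Or.inl huq
        · exact Or.inr (by rw [t2 u huq]; exact mem_connectedComponentIn hq.2)
      · obtain ⟨q, hq, huq⟩ := b2 u hu
        rcases hall q hq with rfl | rfl
        · exact Or.inl (by rw [t1 u huq]; exact mem_connectedComponentIn hq.1)
        · exact Or.inr huq)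
    ⟨p, hYC hp.1, mem_connectedComponentIn hp.1⟩ ⟨p', hYC hp'.1, mem_connectedComponentIn hp'.2⟩
  rcases hall z ⟨connectedComponentIn_subset _ _ hz1, connectedComponentIn_subset _ _ hz2⟩ with
    rfl | rfl
  · apply hpp
    refine (t1 p' ?_).symm
    rw [← connectedComponentIn_eq hz2]
    exact mem_connectedComponentIn hp'.2
  · apply hpp
    refine t2 p ?_
    rw [← connectedComponentIn_eq hz1]
    exact mem_connectedComponentIn hp.1

/-- A point on a segment that is open in `C` is a local separating point. -/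
theorem lw_of_line {C V : Set X} (hV : IsOpen V) {π : X → ℝ} (hπ : Continuous π) {γ : ℝ → X}
    (hγ : Continuous γ) (hπγ : ∀ t, π (γ t) = t) {a b t : ℝ} (ht : t ∈ Ioo a b)
    (hseg : ∀ s ∈ Ioo a b, γ s ∈ C ∩ V) (hK : ∀ q ∈ C ∩ V, q = γ (π q)) : LW C (γ t) := by
  have hsub : γ '' Ioo a b ⊆ connectedComponentIn (C ∩ V) (γ t) :=
    (isPreconnected_Ioo.image γ hγ.continuousOn).subset_connectedComponentIn ⟨t, ht, rfl⟩
      (by rintro _ ⟨s, hs, rfl⟩; exact hseg s hs)
  have hm : ∀ s ∈ Ioo a b, s ≠ t → γ s ∈ connectedComponentIn (C ∩ V) (γ t) \ {γ t} := by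
    intro s hs hst
    refine ⟨hsub ⟨s, hs, rfl⟩, fun he => hst ?_⟩
    rw [← hπγ s, show γ s = γ t from he, hπγ]
  refine lw_of_closed (Y := {q | π q ≤ t}) (Y' := {q | t ≤ π q}) hV (hseg t ht).2
    (isClosed_le hπ continuous_const) (isClosed_le continuous_const hπ)
    (fun q _ => le_total (π q) t) (fun q hq h h' => ?_)
    ⟨_, hm ((a + t) / 2) ⟨by linarith [ht.1], by linarith [ht.1, ht.2]⟩ (by linarith [ht.1]), ?_⟩
    ⟨_, hm ((t + b) / 2) ⟨by linarith [ht.1, ht.2], by linarith [ht.2]⟩ (by linarith [ht.2]), ?_⟩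
  · rw [hK q hq, show π q = t from le_antisymm h h']
  · change π _ ≤ t
    rw [hπγ]; linarith [ht.1]
  · change t ≤ π _
    rw [hπγ]; linarith [ht.2]

/-- Each side of a separation that meets the component of `p` contains small continua at `p`. -/
theorem side_continuum {C V A B : Set X} {p : X} (hC : IsCompact C) (hV : IsOpen V) (hpC : p ∈ C)
    (hpV : p ∈ V) (hAB : (C ∩ V) \ {p} = A ∪ B) (h1 : Disjoint (closure A) B)
    (h2 : Disjoint A (closure B)) (hB : (B ∩ connectedComponentIn (C ∩ V) p).Nonempty) {r : ℝ}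
    (hr : 0 < r) : ∃ R, IsCompact R ∧ IsPreconnected R ∧ p ∈ R ∧ R ⊆ closedBall p r ∧
      R ⊆ insert p B ∧ ∃ v ∈ R, v ≠ p := by
  set Q := connectedComponentIn (C ∩ V) p with hQ
  have hQs : Q ⊆ C ∩ V := connectedComponentIn_subset _ _
  have hpQ : p ∈ Q := mem_connectedComponentIn ⟨hpC, hpV⟩
  have hor : ∀ z ∈ C ∩ V, z ≠ p → z ∈ A ∨ z ∈ B := fun z hz hne =>
    (hAB ▸ (⟨hz, hne⟩ : z ∈ (C ∩ V) \ {p}) : z ∈ A ∪ B)
  have hBp : ∀ z ∈ B, z ≠ p := fun z hz =>
    (hAB.symm ▸ (Or.inr hz : z ∈ A ∪ B) : z ∈ (C ∩ V) \ {p}).2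
  have half : ∀ u v : Set X, IsClosed u → IsClosed v → insert p (B ∩ Q) ⊆ u ∪ v → p ∈ u →
      (insert p (B ∩ Q) ∩ v).Nonempty → (insert p (B ∩ Q) ∩ (u ∩ v)).Nonempty := by
    intro u v hu hv hcov hpu ⟨w, hw, hwv⟩
    by_cases hpv : p ∈ v
    · exact ⟨p, mem_insert _ _, hpu, hpv⟩
    have hwB : w ∈ B ∩ Q := hw.resolve_left fun e => hpv (e ▸ hwv)
    obtain ⟨z, hzQ, hz1, hz2, hz3⟩ := meet_closed (C := Q) (A := closure A ∪ u)
      (B := closure B ∩ v) isPreconnected_connectedComponentIn (isClosed_closure.union hu)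
      (isClosed_closure.inter hv) (fun z hz => by
        by_cases e : z = p
        · exact Or.inl (Or.inr (e ▸ hpu))
        rcases hor z (hQs hz) e with h | h
        · exact Or.inl (Or.inl (subset_closure h))
        · rcases hcov (Or.inr ⟨h, hz⟩) with h' | h'
          · exact Or.inl (Or.inr h')
          · exact Or.inr ⟨subset_closure h, h'⟩)
      ⟨p, hpQ, Or.inr hpu⟩ ⟨w, hwB.2, subset_closure hwB.1, hwv⟩
    have hzB : z ∈ B := (hor z (hQs hzQ) fun e => hpv (e ▸ hz3)).resolve_left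
      fun h => disjoint_left.1 h2 h hz2
    exact ⟨z, Or.inr ⟨hzB, hzQ⟩, hz1.resolve_left fun h => disjoint_left.1 h1 h hzB, hz3⟩
  have hpre : IsPreconnected (insert p (B ∩ Q)) := by
    refine isPreconnected_closed_iff.2 fun u v hu hv hcov h h' => ?_
    rcases hcov (mem_insert _ _) with hp | hp
    · exact half u v hu hv hcov hp h'
    · rw [inter_comm u v]
      exact half v u hv hu (by rwa [union_comm]) hp h
  have hKC : closure (insert p (B ∩ Q)) ⊆ C :=
    closure_minimal (insert_subset hpC fun z hz => (hQs hz.2).1) hC.isClosed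
  obtain ⟨ρ, hρ, hρV⟩ := Metric.nhds_basis_closedBall.mem_iff.1
    (inter_mem (hV.mem_nhds hpV) (closedBall_mem_nhds p hr))
  obtain ⟨w, hw⟩ := hB
  obtain ⟨v, hv, hvp⟩ := small_point (hC.of_isClosed_subset isClosed_closure hKC) hpre.closure
    (subset_closure (mem_insert _ _)) (subset_closure (Or.inr hw)) (hBp w hw.1)
    isOpen_ball (mem_ball_self hρ)
  have hY : IsCompact (closure (insert p (B ∩ Q)) ∩ closedBall p ρ) :=
    (hC.of_isClosed_subset isClosed_closure hKC).inter_right isClosed_closedBall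
  have hs := connectedComponentIn_subset (closure (insert p (B ∩ Q)) ∩ closedBall p ρ) p
  refine ⟨_, isCompact_cc hY p, isPreconnected_connectedComponentIn,
    mem_connectedComponentIn ⟨subset_closure (mem_insert _ _), mem_closedBall_self hρ.le⟩,
    fun z hz => (hρV (hs hz).2).2, fun z hz => ?_, v,
    connectedComponentIn_mono _ (inter_subset_inter_right _ ball_subset_closedBall) hv, hvp⟩
  by_cases e : z = p
  · exact Or.inl e
  refine Or.inr ((hor z ⟨hKC (hs hz).1, (hρV (hs hz).2).1⟩ e).resolve_left fun h => ?_)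
  have := (hs hz).1
  rw [insert_eq, closure_union, closure_singleton] at this
  exact disjoint_left.1 h2 h (closure_mono inter_subset_left (this.resolve_left e))

/-- The part of a continuum on one side of a level of a continuous function. -/
theorem half_piece {M : Set X} (hM : IsCompact M) (hc : IsPreconnected M) {π : X → ℝ}
    (hπ : Continuous π) {s : ℝ} {z w : X} (hz : z ∈ M) (hw : w ∈ M) (h1 : π z ≤ s)
    (h2 : s ≤ π w) : ∃ K ⊆ M, IsCompact K ∧ IsPreconnected K ∧ z ∈ K ∧ (∀ q ∈ K, π q ≤ s) ∧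
      ∃ v ∈ K, π v = s := by
  have hY : IsCompact (M ∩ {q | π q ≤ s}) := hM.inter_right (isClosed_le hπ continuous_const)
  have hs := connectedComponentIn_subset (M ∩ {q | π q ≤ s}) z
  obtain ⟨v, hv, hv'⟩ := bump (Y' := {q | s ≤ π q}) hc hY (isClosed_le continuous_const hπ)
    (fun q hq => (le_total (π q) s).imp (fun h => ⟨hq, h⟩) id) hz ⟨hz, h1⟩ ⟨w, hw, h2⟩
  exact ⟨_, fun q hq => (hs hq).1, isCompact_cc hY z, isPreconnected_connectedComponentIn,
    mem_connectedComponentIn ⟨hz, h1⟩, fun q hq => (hs hq).2, v, hv, le_antisymm (hs hv).2 hv'⟩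

/-- A continuum that crosses a strip contains a continuum in the strip that meets both sides. -/
theorem strip_piece {M : Set X} (hM : IsCompact M) (hc : IsPreconnected M) {π : X → ℝ}
    (hπ : Continuous π) {s₁ s₂ : ℝ} (h12 : s₁ ≤ s₂) {z w : X} (hz : z ∈ M) (hw : w ∈ M)
    (h1 : π z ≤ s₁) (h2 : s₂ ≤ π w) : ∃ K ⊆ M, IsCompact K ∧ IsPreconnected K ∧
      (∀ q ∈ K, s₁ ≤ π q ∧ π q ≤ s₂) ∧ (∃ u ∈ K, π u = s₁) ∧ ∃ v ∈ K, π v = s₂ := by
  obtain ⟨K, hKM, hK, hKc, hzK, hle, v, hv, hvs⟩ := half_piece hM hc hπ hz hw (h1.trans h12) h2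
  obtain ⟨K', hK', k1, k2, k3, k4, u, hu, hus⟩ := half_piece hK hKc (π := fun q => -π q) hπ.neg
    (s := -s₁) hv hzK
    (by linarith) (by linarith)
  exact ⟨K', hK'.trans hKM, k1, k2, fun q hq => ⟨by linarith [k4 q hq], hle q (hK' hq)⟩,
    ⟨u, hu, by linarith⟩, v, k3, hvs⟩

end

end Pool.Agent.MP_a3a891_gt.H72
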