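import Pool.Agent.MP_a3a891_gt.H72.Basic

/-! Components of the covering sets for a continuum in the unit square that is locally covered
above the bottom side (copy of the H97 file, for Whyburn local separating points). -/

open Set Topology Filter Metric

namespace Pool.Agent.MP_a3a891_gt.H72

open Pool.Agent.MP_a3a891_gt.H97

/-- A continuum in the unit square whose local separating points are covered by disjoint closed
proper subsets, each point above the bottom side having a connected neighbourhood inside one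
of them. -/
structure Ctx (C : Set (ℝ × ℝ)) {I : Type} (F : I → Set (ℝ × ℝ)) : Prop where
  cpt : IsCompact C
  conn : IsPreconnected C
  sub : C ⊆ box
  cl : ∀ i, IsClosed (F i)
  dis : Pairwise fun i j => Disjoint (F i) (F j)
  subC : ∀ i, F i ⊆ C
  proper : ∀ i, ¬ C ⊆ F i
  cov : ∀ p ∈ C, LW C p → ∃ i, p ∈ F i
  loc : ∀ z ∈ C, 0 < z.2 → ∃ W, IsOpen W ∧ z ∈ W ∧ IsPreconnected (C ∩ W) ∧ ∃ i, C ∩ W ⊆ F i

/-- Components of the sets `F i`. -/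
def Comp {I : Type} (F : I → Set (ℝ × ℝ)) (S : Set (ℝ × ℝ)) : Prop :=
  ∃ i z, z ∈ F i ∧ S = connectedComponentIn (F i) z

/-- The point `(t, 0)` is covered. -/
def Cov {I : Type} (F : I → Set (ℝ × ℝ)) (t : ℝ) : Prop := ∃ i, ((t, 0) : ℝ × ℝ) ∈ F i

variable {C : Set (ℝ × ℝ)} {I : Type} {F : I → Set (ℝ × ℝ)}

theorem Comp.subF {S : Set (ℝ × ℝ)} (h : Comp F S) : ∃ i, S ⊆ F i := by
  obtain ⟨i, z, -, rfl⟩ := h
  exact ⟨i, connectedComponentIn_subset _ _⟩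

theorem Comp.pre {S : Set (ℝ × ℝ)} (h : Comp F S) : IsPreconnected S := by
  obtain ⟨i, z, -, rfl⟩ := h
  exact isPreconnected_connectedComponentIn

theorem Comp.ne {S : Set (ℝ × ℝ)} (h : Comp F S) : S.Nonempty := by
  obtain ⟨i, z, hz, rfl⟩ := h
  exact ⟨z, mem_connectedComponentIn hz⟩

theorem Comp.cov {S : Set (ℝ × ℝ)} (h : Comp F S) {t : ℝ} (ht : (t, 0) ∈ S) : Cov F t :=
  let ⟨i, hi⟩ := h.subF; ⟨i, hi ht⟩

theorem comp_of {i : I} {z : ℝ × ℝ} (hz : z ∈ F i) : ∃ S, Comp F S ∧ z ∈ S :=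
  ⟨_, ⟨i, z, hz, rfl⟩, mem_connectedComponentIn hz⟩

namespace Ctx

variable (H : Ctx C F)
include H

theorem idx {i j : I} {z : ℝ × ℝ} (hi : z ∈ F i) (hj : z ∈ F j) : i = j := by
  by_contra h
  exact disjoint_left.1 (H.dis h) hi hj

theorem csub {S : Set (ℝ × ℝ)} (h : Comp F S) : S ⊆ C :=
  let ⟨i, hi⟩ := h.subF; hi.trans (H.subC i)

theorem ccpt {S : Set (ℝ × ℝ)} (h : Comp F S) : IsCompact S := by
  obtain ⟨i, z, -, rfl⟩ := h
  exact isCompact_cc (H.cpt.of_isClosed_subset (H.cl i) (H.subC i)) z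

theorem ceq {S S' : Set (ℝ × ℝ)} (h : Comp F S) (h' : Comp F S') {z : ℝ × ℝ} (hz : z ∈ S)
    (hz' : z ∈ S') : S = S' := by
  obtain ⟨i, p, -, rfl⟩ := h
  obtain ⟨j, q, -, rfl⟩ := h'
  obtain rfl := H.idx (connectedComponentIn_subset _ _ hz) (connectedComponentIn_subset _ _ hz')
  rw [connectedComponentIn_eq hz, connectedComponentIn_eq hz']

theorem cdis {S S' : Set (ℝ × ℝ)} (h : Comp F S) (h' : Comp F S') (hne : S ≠ S') :
    Disjoint S S' :=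
  disjoint_left.2 fun _ hz hz' => hne (H.ceq h h' hz hz')

theorem up {z : ℝ × ℝ} (hz : z ∈ C) (h0 : 0 < z.2) :
    ∃ S W, Comp F S ∧ IsOpen W ∧ z ∈ W ∧ C ∩ W ⊆ S := by
  obtain ⟨W, hW, hzW, hc, i, hi⟩ := H.loc z hz h0
  exact ⟨_, W, ⟨i, z, hi ⟨hz, hzW⟩, rfl⟩, hW, hzW,
    hc.subset_connectedComponentIn ⟨hz, hzW⟩ hi⟩

theorem cnhds {S : Set (ℝ × ℝ)} (h : Comp F S) {z : ℝ × ℝ} (hz : z ∈ S) (h0 : 0 < z.2) :
    ∃ W, IsOpen W ∧ z ∈ W ∧ C ∩ W ⊆ S := by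
  obtain ⟨S', W, h', hW, hzW, hs⟩ := H.up (H.csub h hz) h0
  exact ⟨W, hW, hzW, H.ceq h' h (hs ⟨H.csub h hz, hzW⟩) hz ▸ hs⟩

theorem nocross {S S' : Set (ℝ × ℝ)} (h : Comp F S) (h' : Comp F S') (hne : S ≠ S')
    {a b c d : ℝ} (ha : (a, 0) ∈ S) (hb : (b, 0) ∈ S) (hc : (c, 0) ∈ S') (hd : (d, 0) ∈ S')
    (hac : a < c) (hcb : c < b) (hbd : b < d) : False :=
  cross (H.ccpt h) (H.ccpt h') h.pre h'.pre (fun _ hz => (H.sub (H.csub h hz)).2.2.1)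
    (fun _ hz => (H.sub (H.csub h' hz)).2.2.1) (H.cdis h h' hne) ha hb hc hd hac hcb hbd

theorem chigher {S S' : Set (ℝ × ℝ)} (h : Comp F S) (h' : Comp F S') (hne : S ≠ S')
    {a b c : ℝ} (ha : (a, 0) ∈ S) (hb : (b, 0) ∈ S) (hc : (c, 0) ∈ S') (hac : a < c)
    (hcb : c < b) {z : ℝ × ℝ} (hz : z ∈ S') : ∃ w ∈ S, z.2 < w.2 :=
  higher (H.ccpt h) (H.ccpt h') h.pre h'.pre ((H.csub h).trans H.sub) ((H.csub h').trans H.sub)
    (H.cdis h h' hne) ha hb hc hac hcb hz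

theorem finite_high {η : ℝ} (hη : 0 < η) : {S | Comp F S ∧ ∃ z ∈ S, η ≤ z.2}.Finite := by
  have hK : IsCompact (C ∩ {z : ℝ × ℝ | η ≤ z.2}) :=
    H.cpt.inter_right (isClosed_le continuous_const continuous_snd)
  have key : ∀ K : Set (ℝ × ℝ), IsCompact K → K ⊆ C ∩ {z : ℝ × ℝ | η ≤ z.2} →
      {S | Comp F S ∧ (S ∩ K).Nonempty}.Finite := by
    intro K hK hKs
    refine hK.induction_on (p := fun K => {S | Comp F S ∧ (S ∩ K).Nonempty}.Finite) (by simp)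
      ?_ ?_ ?_
    · intro s t hst ht
      exact ht.subset fun S hS => ⟨hS.1, hS.2.mono (inter_subset_inter_right _ hst)⟩
    · intro s t hs ht
      refine (hs.union ht).subset ?_
      rintro S ⟨hS, z, hz, hz' | hz'⟩
      · exact Or.inl ⟨hS, z, hz, hz'⟩
      · exact Or.inr ⟨hS, z, hz, hz'⟩
    · intro z hz
      obtain ⟨S, W, hS, hW, hzW, hs⟩ := H.up (hKs hz).1 (hη.trans_le (hKs hz).2)
      refine ⟨W, mem_nhdsWithin_of_mem_nhds (hW.mem_nhds hzW), (finite_singleton S).subset ?_⟩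
      rintro S' ⟨hS', w, hw, hw'⟩
      exact H.ceq hS' hS hw (hs ⟨H.csub hS' hw, hw'⟩)
  exact (key _ hK subset_rfl).subset fun S ⟨hS, z, hz, hz'⟩ => ⟨hS, z, hz, H.csub hS hz, hz'⟩

/-- A preconnected subset of `C` on which a component stays above the bottom side is contained in
it or disjoint from it. -/
theorem clopen {S K : Set (ℝ × ℝ)} (h : Comp F S) (hK : IsPreconnected K) (hKC : K ⊆ C)
    (hup : ∀ z ∈ K ∩ S, 0 < z.2) (hne : (K ∩ S).Nonempty) : K ⊆ S := by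
  choose! W hW using fun z (hz : z ∈ K ∩ S) => H.cnhds h hz.2 (hup z hz)
  have hO : IsOpen (⋃ z ∈ K ∩ S, W z) := isOpen_biUnion fun z hz => (hW z hz).1
  by_contra hcon
  obtain ⟨q, hq, hqS⟩ := not_subset.1 hcon
  obtain ⟨p, hp⟩ := hne
  obtain ⟨z, hz, hz1, hz2⟩ := hK _ _ hO (H.ccpt h).isClosed.isOpen_compl (fun z hz => by
    by_cases h' : z ∈ S
    · exact Or.inl (mem_biUnion (show z ∈ K ∩ S from ⟨hz, h'⟩) (hW z ⟨hz, h'⟩).2.1)
    · exact Or.inr h') ⟨p, hp.1, mem_biUnion hp (hW p hp).2.1⟩ ⟨q, hq, hqS⟩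
  obtain ⟨y, hy, hzy⟩ := mem_iUnion₂.1 hz1
  exact hz2 ((hW y hy).2.2 ⟨hKC hz, hzy⟩)

theorem meetJ {S : Set (ℝ × ℝ)} (h : Comp F S) : ∃ t, (t, 0) ∈ S := by
  by_contra hcon
  push Not at hcon
  obtain ⟨i, hi⟩ := h.subF
  obtain ⟨p, hp⟩ := h.ne
  refine H.proper i ((H.clopen h H.conn subset_rfl (fun z hz => ?_) ⟨p, H.csub h hp, hp⟩).trans hi)
  refine lt_of_le_of_ne (H.sub hz.1).2.2.1 fun h0 => hcon z.1 ?_
  rw [h0]
  exact hz.2

theorem trace_cpt {S : Set (ℝ × ℝ)} (hS : IsClosed S) (hSC : S ⊆ C) :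
    IsCompact {t : ℝ | (t, 0) ∈ S} :=
  (isCompact_Icc (a := (0 : ℝ)) (b := 1)).of_isClosed_subset
    (hS.preimage (f := fun t : ℝ => ((t, 0) : ℝ × ℝ)) (by fun_prop))
    fun _ ht => ⟨(H.sub (hSC ht)).1, (H.sub (hSC ht)).2.1⟩

theorem ends {S : Set (ℝ × ℝ)} (h : Comp F S) :
    ∃ c d, (c, 0) ∈ S ∧ (d, 0) ∈ S ∧ ∀ t, (t, 0) ∈ S → c ≤ t ∧ t ≤ d := by
  have hc := H.trace_cpt (H.ccpt h).isClosed (H.csub h)
  obtain ⟨c, hc1, hc2⟩ := hc.exists_isLeast (H.meetJ h)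
  obtain ⟨d, hd1, hd2⟩ := hc.exists_isGreatest (H.meetJ h)
  exact ⟨c, d, hc1, hd1, fun t ht => ⟨hc2 ht, hd2 ht⟩⟩

variable [Countable I]

theorem seg {a b : ℝ} (hab : a < b) (h : ∀ t ∈ Ioo a b, Cov F t) :
    ∃ i, ∀ t ∈ Icc a b, (t, 0) ∈ F i :=
  sier_Ioo (fun i => {t : ℝ | (t, 0) ∈ F i})
    (fun _ _ hij => (H.dis hij).preimage fun t : ℝ => ((t, 0) : ℝ × ℝ))
    (fun i => (H.cl i).preimage (f := fun t : ℝ => ((t, 0) : ℝ × ℝ)) (by fun_prop)) hab h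

omit [Countable I] in
/-- A limit point of a family of components that lies in none of them is on the bottom side and is
approached by arbitrarily low components. -/
theorem low_near {G : Set (Set (ℝ × ℝ))} (hG : ∀ S ∈ G, Comp F S) {q : ℝ × ℝ}
    (hq : q ∈ closure (⋃₀ G)) (hqn : q ∉ ⋃₀ G) :
    q ∈ C ∧ q.2 = 0 ∧ ∀ η > 0, ∀ δ > 0, ∃ S ∈ G, (∀ z ∈ S, z.2 < η) ∧
      ∃ z ∈ S, |z.1 - q.1| < δ := by
  have hqC : q ∈ C :=
    closure_minimal (sUnion_subset fun S hS => H.csub (hG S hS)) H.cpt.isClosed hq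
  refine ⟨hqC, ?_, fun η hη δ hδ => ?_⟩
  · by_contra h0
    obtain ⟨S, W, hS, hW, hqW, hs⟩ := H.up hqC (lt_of_le_of_ne (H.sub hqC).2.2.1 (Ne.symm h0))
    obtain ⟨z, hzW, S', hS', hz⟩ := mem_closure_iff.1 hq W hW hqW
    exact hqn ⟨S', hS', H.ceq hS (hG S' hS') (hs ⟨H.csub (hG S' hS') hz, hzW⟩) hz ▸ hs ⟨hqC, hqW⟩⟩
  · have hfin : (G ∩ {S | Comp F S ∧ ∃ z ∈ S, η ≤ z.2}).Finite :=
      (H.finite_high hη).inter_of_right _
    have hcl : IsClosed (⋃ S ∈ G ∩ {S | Comp F S ∧ ∃ z ∈ S, η ≤ z.2}, S) :=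
      hfin.isClosed_biUnion fun S hS => (H.ccpt hS.2.1).isClosed
    obtain ⟨z, ⟨hz1, hz2⟩, S, hS, hz⟩ := mem_closure_iff.1 hq _
      (hcl.isOpen_compl.inter (isOpen_ball (x := q) (ε := δ)))
      ⟨fun h => by
        obtain ⟨S, hS, hqS⟩ := mem_iUnion₂.1 h
        exact hqn ⟨S, hS.1, hqS⟩, mem_ball_self hδ⟩
    refine ⟨S, hS, fun w hw => ?_, z, hz, ?_⟩
    · by_contra hcon
      exact hz1 (mem_biUnion (show S ∈ G ∩ _ from ⟨hS, hG S hS, w, hw, not_lt.1 hcon⟩) hz)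
    · rw [mem_ball, Prod.dist_eq] at hz2
      exact (le_max_left _ _).trans_lt hz2

end Ctx

/-- The context, with the property that an interval over which components pass arbitrarily low
without touching it has covered end points. -/
structure Ctx2 (C : Set (ℝ × ℝ)) {I : Type} (F : I → Set (ℝ × ℝ)) : Prop extends Ctx C F where
  hug : ∀ {t₁ t₂ : ℝ}, t₁ < t₂ →
    (∀ η > 0, ∃ S, Comp F S ∧ (∀ z ∈ S, z.2 < η) ∧ (∀ t ∈ Ioo t₁ t₂, (t, 0) ∉ S) ∧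
      (∃ z ∈ S, z.1 ≤ t₁) ∧ ∃ z ∈ S, t₂ ≤ z.1) → Cov F t₁ ∧ Cov F t₂

end Pool.Agent.MP_a3a891_gt.H72
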