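import Pool.Agent.MP_a3a891_gt.H72.Basic

/-! Continua that are locally contained in a cross. -/

open Set Topology Filter Metric

namespace Pool.Agent.MP_a3a891_gt.H72

open Pool.Agent.MP_a3a891_gt.H97

theorem arm {X : Type} [MetricSpace X] {C O : Set X} (hC : IsClosed C) (hCc : IsPreconnected C)
    {I : Type} [Countable I] {F : I → Set X} (cl : ∀ i, IsClosed (F i))
    (dis : Pairwise fun i j => Disjoint (F i) (F j)) (cov : ∀ p ∈ C, LW C p → ∃ i, p ∈ F i)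
    (hO : IsOpen O) {π : X → ℝ} (hπ : Continuous π) {γ : ℝ → X} (hγ : Continuous γ)
    (hπγ : ∀ t, π (γ t) = t) {r : ℝ} (hr : 0 < r) (h0 : γ 0 ∈ C)
    (hin : ∀ t ∈ Ioo 0 r, γ t ∈ O) (hline : ∀ w ∈ C ∩ O, w = γ (π w)) :
    ∃ ρ > 0, ∀ t ∈ Ioo 0 ρ, γ t ∈ C → (∀ s ∈ Icc 0 t, γ s ∈ C) ∧ ∃ i, γ 0 ∈ F i ∧ γ t ∈ F i := by
  have gap : ∀ a b t, 0 < a → a < t → t < b → b < r → γ a ∉ C → γ b ∉ C → γ t ∉ C := by
    intro a b t ha hat htb hb hna hnb ht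
    have hK : IsClosed (γ '' Icc a b) := (isCompact_Icc.image hγ).isClosed
    have hU : IsOpen (O ∩ π ⁻¹' Ioo a b) := hO.inter (isOpen_Ioo.preimage hπ)
    obtain ⟨w, hwC, ⟨s, hs, rfl⟩, hw⟩ := meet_closed hCc hK hU.isClosed_compl (fun w hw => by
      by_cases h : w ∈ O ∩ π ⁻¹' Ioo a b
      · exact Or.inl ⟨π w, Ioo_subset_Icc_self h.2, (hline w ⟨hw, h.1⟩).symm⟩
      · exact Or.inr h) ⟨γ t, ht, t, ⟨hat.le, htb.le⟩, rfl⟩
      ⟨γ 0, h0, fun h => by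
        have := h.2.1
        rw [hπγ] at this
        linarith⟩
    apply hw
    have h1 : a < s := lt_of_le_of_ne hs.1 fun h => hna (h ▸ hwC)
    have h2 : s < b := lt_of_le_of_ne hs.2 fun h => hnb (h ▸ hwC)
    exact ⟨hin s ⟨by linarith, by linarith⟩, by rw [mem_preimage, hπγ]; exact ⟨h1, h2⟩⟩
  have full : ∀ ρ, 0 < ρ → ρ ≤ r → (∀ t ∈ Ioo 0 ρ, γ t ∈ C) →
      ∀ t ∈ Ioo 0 ρ, γ t ∈ C → (∀ s ∈ Icc 0 t, γ s ∈ C) ∧ ∃ i, γ 0 ∈ F i ∧ γ t ∈ F i := by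
    intro ρ hρ hρr hall t ht _
    refine ⟨fun s hs => ?_, ?_⟩
    · rcases hs.1.eq_or_lt with h | h
      · exact h ▸ h0
      · exact hall s ⟨h, hs.2.trans_lt ht.2⟩
    · obtain ⟨i, hi⟩ := sier_Ioo (fun i => γ ⁻¹' F i) (fun i j hij => (dis hij).preimage _)
        (fun i => (cl i).preimage hγ) hρ (fun s hs => cov _ (hall s hs)
          (lw_of_line hO hπ hγ hπγ hs (fun u hu => ⟨hall u hu, hin u ⟨hu.1, hu.2.trans_le hρr⟩⟩)
            hline))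
      exact ⟨i, hi ⟨le_rfl, hρ.le⟩, hi ⟨ht.1.le, ht.2.le⟩⟩
  by_cases hall : ∀ t ∈ Ioo 0 r, γ t ∈ C
  · exact ⟨r, hr, full r hr le_rfl hall⟩
  push Not at hall
  obtain ⟨b, hb, hnb⟩ := hall
  by_cases hex : ∃ t ∈ Ioo 0 b, γ t ∈ C
  · obtain ⟨t, ht, htC⟩ := hex
    refine ⟨t, ht.1, full t ht.1 (ht.2.trans hb.2).le fun a ha => ?_⟩
    by_contra hna
    exact gap a b t ha.1 ha.2 ht.2 hb.2 hna hnb htC
  · exact ⟨b, hb.1, fun t ht htC => absurd ⟨t, ht, htC⟩ hex⟩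

/-- One arm of the cross at `z` in direction `e`. -/
theorem arm' {C : Set (ℝ × ℝ)} (hC : IsClosed C) (hCc : IsPreconnected C)
    {I : Type} [Countable I] {F : I → Set (ℝ × ℝ)} (cl : ∀ i, IsClosed (F i))
    (dis : Pairwise fun i j => Disjoint (F i) (F j)) (cov : ∀ p ∈ C, LW C p → ∃ i, p ∈ F i)
    {z : ℝ × ℝ} (hz : z ∈ C) {r : ℝ} (hr : 0 < r)
    (hx : ∀ w ∈ C ∩ ball z r, w.1 = z.1 ∨ w.2 = z.2) (e : ℝ × ℝ)
    (he : e.1 * e.2 = 0) (he' : e.1 ^ 2 + e.2 ^ 2 = 1) :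
    ∃ ρ > (0 : ℝ), ∀ t ∈ Ioo 0 ρ, z + t • e ∈ C →
      (∀ s ∈ Icc 0 t, z + s • e ∈ C) ∧ ∃ i, z ∈ F i ∧ z + t • e ∈ F i := by
  have hn : ‖e‖ ≤ 1 := by
    rw [Prod.norm_def, max_le_iff, Real.norm_eq_abs, Real.norm_eq_abs, abs_le, abs_le]
    refine ⟨⟨?_, ?_⟩, ?_, ?_⟩ <;> nlinarith [sq_nonneg e.1, sq_nonneg e.2]
  have hπγ : ∀ t : ℝ, e.1 * ((z + t • e).1 - z.1) + e.2 * ((z + t • e).2 - z.2) = t := by
    intro t
    simp only [Prod.fst_add, Prod.snd_add, Prod.smul_fst, Prod.smul_snd, smul_eq_mul]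
    linear_combination t * he'
  have := arm (O := ball z r ∩ {w | 0 < e.1 * (w.1 - z.1) + e.2 * (w.2 - z.2)}) hC hCc cl dis cov
    (isOpen_ball.inter (isOpen_lt continuous_const (by fun_prop)))
    (π := fun w => e.1 * (w.1 - z.1) + e.2 * (w.2 - z.2)) (by fun_prop)
    (γ := fun t => z + t • e) (by fun_prop) hπγ hr (by simpa using hz)
    (fun t ht => ⟨by
      rw [mem_ball, dist_eq_norm, add_sub_cancel_left, norm_smul, Real.norm_eq_abs,
        abs_of_pos ht.1]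
      nlinarith [ht.1, ht.2], by
      rw [mem_setOf_eq, hπγ]; exact ht.1⟩)
    (fun w hw => by
      have h1 := hx w ⟨hw.1, hw.2.1⟩
      have h2 : 0 < e.1 * (w.1 - z.1) + e.2 * (w.2 - z.2) := hw.2.2
      rcases mul_eq_zero.1 he with h | h <;> rcases h1 with h1 | h1
      · ext
        · simp [h, h1]
        · simp only [Prod.snd_add, Prod.smul_snd, smul_eq_mul, h]
          rw [h] at he'
          linear_combination (z.2 - w.2) * he'
      · simp [h, h1] at h2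
      · simp [h, h1] at h2
      · ext
        · simp only [Prod.fst_add, Prod.smul_fst, smul_eq_mul, h]
          rw [h] at he'
          linear_combination (z.1 - w.1) * he'
        · simp [h, h1])
  simpa using this

theorem star {C : Set (ℝ × ℝ)} (hC : IsCompact C) (hCc : IsPreconnected C) (hnt : C.Nontrivial)
    {I : Type} [Countable I] {F : I → Set (ℝ × ℝ)} (cl : ∀ i, IsClosed (F i))
    (dis : Pairwise fun i j => Disjoint (F i) (F j)) (cov : ∀ p ∈ C, LW C p → ∃ i, p ∈ F i)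
    {z : ℝ × ℝ} (hz : z ∈ C) {r : ℝ} (hr : 0 < r)
    (hx : ∀ w ∈ C ∩ ball z r, w.1 = z.1 ∨ w.2 = z.2) :
    ∃ W, IsOpen W ∧ z ∈ W ∧ W ⊆ ball z r ∧ IsPreconnected (C ∩ W) ∧ ∃ i, C ∩ W ⊆ F i := by
  obtain ⟨r1, p1, h1⟩ := arm' hC.isClosed hCc cl dis cov hz hr hx (1, 0) (by simp) (by simp)
  obtain ⟨r2, p2, h2⟩ := arm' hC.isClosed hCc cl dis cov hz hr hx (-1, 0) (by simp) (by simp)
  obtain ⟨r3, p3, h3⟩ := arm' hC.isClosed hCc cl dis cov hz hr hx (0, 1) (by simp) (by simp)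
  obtain ⟨r4, p4, h4⟩ := arm' hC.isClosed hCc cl dis cov hz hr hx (0, -1) (by simp) (by simp)
  set ρ := min r (min (min r1 r2) (min r3 r4)) with hρ
  have q0 : ρ ≤ r := min_le_left _ _
  have q1 : ρ ≤ r1 := (min_le_right _ _).trans ((min_le_left _ _).trans (min_le_left _ _))
  have q2 : ρ ≤ r2 := (min_le_right _ _).trans ((min_le_left _ _).trans (min_le_right _ _))
  have q3 : ρ ≤ r3 := (min_le_right _ _).trans ((min_le_right _ _).trans (min_le_left _ _))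
  have q4 : ρ ≤ r4 := (min_le_right _ _).trans ((min_le_right _ _).trans (min_le_right _ _))
  have ρ0 : 0 < ρ := by positivity
  have key : ∀ w ∈ C ∩ ball z ρ, w ≠ z → ∃ e : ℝ × ℝ, ∃ t : ℝ, ‖e‖ ≤ 1 ∧ t ∈ Ioo 0 ρ ∧ w = z + t • e ∧
      (∀ s ∈ Icc 0 t, z + s • e ∈ C) ∧ ∃ i, z ∈ F i ∧ w ∈ F i := by
    intro w hw hne
    have hd := hw.2
    rw [mem_ball, Prod.dist_eq, max_lt_iff, Real.dist_eq, Real.dist_eq, abs_lt, abs_lt] at hd
    rcases hx w ⟨hw.1, ball_subset_ball q0 hw.2⟩ with h | h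
    · rcases lt_trichotomy w.2 z.2 with g | g | g
      · have e : w = z + (z.2 - w.2) • ((0, -1) : ℝ × ℝ) := by ext <;> simp [h]
        have := h4 (z.2 - w.2) ⟨by linarith, by linarith [hd.2.1]⟩ (e ▸ hw.1)
        exact ⟨(0, -1), z.2 - w.2, by simp [Prod.norm_def], ⟨by linarith, by linarith [hd.2.1]⟩,
          e, this.1, e ▸ this.2⟩
      · exact absurd (Prod.ext h g) hne
      · have e : w = z + (w.2 - z.2) • ((0, 1) : ℝ × ℝ) := by ext <;> simp [h]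
        have := h3 (w.2 - z.2) ⟨by linarith, by linarith [hd.2.2]⟩ (e ▸ hw.1)
        exact ⟨(0, 1), w.2 - z.2, by simp [Prod.norm_def], ⟨by linarith, by linarith [hd.2.2]⟩,
          e, this.1, e ▸ this.2⟩
    · rcases lt_trichotomy w.1 z.1 with g | g | g
      · have e : w = z + (z.1 - w.1) • ((-1, 0) : ℝ × ℝ) := by ext <;> simp [h]
        have := h2 (z.1 - w.1) ⟨by linarith, by linarith [hd.1.1]⟩ (e ▸ hw.1)
        exact ⟨(-1, 0), z.1 - w.1, by simp [Prod.norm_def], ⟨by linarith, by linarith [hd.1.1]⟩,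
          e, this.1, e ▸ this.2⟩
      · exact absurd (Prod.ext g h) hne
      · have e : w = z + (w.1 - z.1) • ((1, 0) : ℝ × ℝ) := by ext <;> simp [h]
        have := h1 (w.1 - z.1) ⟨by linarith, by linarith [hd.1.2]⟩ (e ▸ hw.1)
        exact ⟨(1, 0), w.1 - z.1, by simp [Prod.norm_def], ⟨by linarith, by linarith [hd.1.2]⟩,
          e, this.1, e ▸ this.2⟩
  have hzz : z ∈ C ∩ ball z ρ := ⟨hz, mem_ball_self ρ0⟩
  refine ⟨ball z ρ, isOpen_ball, hzz.2, ball_subset_ball q0, ?_, ?_⟩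
  · refine isPreconnected_of_forall z fun w hw => ?_
    by_cases hne : w = z
    · exact ⟨{z}, singleton_subset_iff.2 hzz, rfl, hne, isPreconnected_singleton⟩
    obtain ⟨e, t, hn, ht, hwe, hs, -⟩ := key w hw hne
    refine ⟨(fun s : ℝ => z + s • e) '' Icc 0 t, ?_, ⟨0, ⟨le_rfl, ht.1.le⟩, by simp⟩,
      ⟨t, ⟨ht.1.le, le_rfl⟩, hwe.symm⟩, isPreconnected_Icc.image _ (by fun_prop)⟩
    rintro _ ⟨s, hs', rfl⟩
    refine ⟨hs s hs', ?_⟩
    rw [mem_ball, dist_eq_norm, add_sub_cancel_left, norm_smul, Real.norm_eq_abs,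
      abs_of_nonneg hs'.1]
    nlinarith [hs'.1, hs'.2, ht.2]
  · obtain ⟨w, hw, hwz⟩ := hnt.exists_ne z
    obtain ⟨v, hv, hvz⟩ := small_point hC hCc hz hw hwz isOpen_ball hzz.2
    obtain ⟨-, -, -, -, -, -, i, hi, -⟩ := key v (connectedComponentIn_subset _ _ hv) hvz
    refine ⟨i, fun u hu => ?_⟩
    by_cases hne : u = z
    · exact hne ▸ hi
    obtain ⟨-, -, -, -, -, -, j, hj, hu'⟩ := key u hu hne
    by_cases hij : i = j
    · exact hij ▸ hu'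
    · exact absurd hj (disjoint_left.1 (dis hij) hi)

end Pool.Agent.MP_a3a891_gt.H72
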