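import Pool.Agent.MP_a3a891_gt.H72.Shadow
import Pool.Agent.MP_a3a891_gt.H72.Tree
import Pool.Agent.MP_a3a891_gt.H72.Star

/-! Gluing the maximal shadowed intervals to the covering sets. -/

open Set Topology Filter Metric

namespace Pool.Agent.MP_a3a891_gt.H72

open Pool.Agent.MP_a3a891_gt.H97

/-- A maximal shadowed interval. -/
def Gap (C : Set (ℝ × ℝ)) (p q : ℝ) : Prop := p < q ∧ Ioo p q ⊆ DD C ∧ p ∉ DD C ∧ q ∉ DD C

/-- The end of a maximal shadowed interval at which it is glued. -/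
def Anch (C : Set (ℝ × ℝ)) {I : Type} (F : I → Set (ℝ × ℝ)) (p q e : ℝ) : Prop :=
  Gap C p q ∧ (Src F 1 p ((p + q) / 2) ∧ e = q ∨ ¬ Src F 1 p ((p + q) / 2) ∧ e = p)

variable {C : Set (ℝ × ℝ)} {I : Type} {F : I → Set (ℝ × ℝ)}

theorem gap_exists (hC : IsClosed C) (hb : C ⊆ box) {t : ℝ} (ht : t ∈ DD C) :
    ∃ p q, Gap C p q ∧ t ∈ Ioo p q := by
  have hbd : ∀ s ∈ DD C, 0 ≤ s ∧ s ≤ 1 := fun s hs =>
    ⟨(hb (mem_of_DD hC hb hs)).1, (hb (mem_of_DD hC hb hs)).2.1⟩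
  obtain ⟨t0, t1⟩ := hbd t ht
  obtain ⟨p, ⟨p1, p2⟩, hp⟩ := ((isCompact_Icc (a := (-1 : ℝ)) (b := t)).inter_right
    (isOpen_DD (C := C)).isClosed_compl).exists_isGreatest
    ⟨-1, ⟨le_rfl, by linarith⟩, fun h => by linarith [(hbd _ h).1]⟩
  obtain ⟨q, ⟨q1, q2⟩, hq⟩ := ((isCompact_Icc (a := t) (b := (2 : ℝ))).inter_right
    (isOpen_DD (C := C)).isClosed_compl).exists_isLeast
    ⟨2, ⟨by linarith, le_rfl⟩, fun h => by linarith [(hbd _ h).2]⟩
  have l1 : p < t := lt_of_le_of_ne p1.2 fun e => p2 (e ▸ ht)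
  have l2 : t < q := lt_of_le_of_ne q1.1 fun e => q2 (e ▸ ht)
  refine ⟨p, q, ⟨l1.trans l2, fun s hs => ?_, p2, q2⟩, l1, l2⟩
  by_contra hn
  rcases le_total s t with c | c
  · exact absurd (hp ⟨⟨p1.1.trans hs.1.le, c⟩, hn⟩) (not_le.2 hs.1)
  · exact absurd (hq ⟨⟨c, hs.2.le.trans q1.2⟩, hn⟩) (not_le.2 hs.2)

theorem gap_unique {p q p' q' t : ℝ} (h : Gap C p q) (h' : Gap C p' q') (ht : t ∈ Ioo p q)
    (ht' : t ∈ Ioo p' q') : p' = p ∧ q' = q := by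
  constructor
  · rcases lt_trichotomy p' p with c | c | c
    · exact absurd (h'.2.1 ⟨c, ht.1.trans ht'.2⟩) h.2.2.1
    · exact c
    · exact absurd (h.2.1 ⟨c, ht'.1.trans ht.2⟩) h'.2.2.1
  · rcases lt_trichotomy q' q with c | c | c
    · exact absurd (h.2.1 ⟨ht.1.trans ht'.2, c⟩) h'.2.2.2
    · exact c
    · exact absurd (h'.2.1 ⟨ht'.1.trans ht.2, c⟩) h.2.2.2

theorem gap_sub (hC : IsClosed C) (hb : C ⊆ box) {p q : ℝ} (h : Gap C p q) {s : ℝ}
    (hs : s ∈ Icc p q) : ((s, 0) : ℝ × ℝ) ∈ C := by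
  have hc : IsClosed {t : ℝ | ((t, 0) : ℝ × ℝ) ∈ C} :=
    hC.preimage (f := fun t : ℝ => ((t, 0) : ℝ × ℝ)) (by fun_prop)
  rw [← closure_Ioo h.1.ne] at hs
  exact closure_minimal (fun t ht => mem_of_DD hC hb (h.2.1 ht)) hc hs

theorem Anch.exists {p q : ℝ} (h : Gap C p q) : ∃ e, Anch C F p q e := by
  by_cases c : Src F 1 p ((p + q) / 2)
  · exact ⟨q, h, Or.inl ⟨c, rfl⟩⟩
  · exact ⟨p, h, Or.inr ⟨c, rfl⟩⟩

theorem Anch.eq {p q e e' : ℝ} (h : Anch C F p q e) (h' : Anch C F p q e') : e = e' := by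
  rcases h.2 with ⟨a, rfl⟩ | ⟨a, rfl⟩ <;> rcases h'.2 with ⟨b, rfl⟩ | ⟨b, rfl⟩
  · rfl
  · exact absurd a b
  · exact absurd b a
  · rfl

theorem Anch.mem {p q e : ℝ} (h : Anch C F p q e) : e ∈ Icc p q ∧ e ∉ DD C := by
  rcases h.2 with ⟨-, rfl⟩ | ⟨-, rfl⟩
  · exact ⟨right_mem_Icc.2 h.1.1.le, h.1.2.2.2⟩
  · exact ⟨left_mem_Icc.2 h.1.1.le, h.1.2.2.1⟩

theorem countable_anch : {e | ∃ p q, Anch C F p q e}.Countable := by
  refine (countable_iUnion fun r : ℚ => (show {e | ∃ p q, Anch C F p q e ∧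
    (r : ℝ) ∈ Ioo p q}.Subsingleton from ?_).countable).mono ?_
  · rintro e ⟨p, q, h, hr⟩ e' ⟨p', q', h', hr'⟩
    obtain ⟨rfl, rfl⟩ := gap_unique h.1 h'.1 hr hr'
    exact h.eq h'
  · rintro e ⟨p, q, h⟩
    obtain ⟨r, hr⟩ := exists_rat_btwn h.1.1
    exact mem_iUnion.2 ⟨r, p, q, h, hr⟩

/-- The intervals glued to `G`. -/
def Ext (C : Set (ℝ × ℝ)) {I : Type} (F : I → Set (ℝ × ℝ)) (G : Set (ℝ × ℝ)) : Set (ℝ × ℝ) :=
  {z | z.2 = 0 ∧ ∃ p q e, Anch C F p q e ∧ (e, 0) ∈ G ∧ z.1 ∈ Icc p q}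

theorem isClosed_ext {G : Set (ℝ × ℝ)} (hG : IsClosed G) : IsClosed (G ∪ Ext C F G) := by
  have one : ∀ c : ℝ, IsClosed {z : ℝ × ℝ | z.2 = 0 ∧ ∃ p q e, Anch C F p q e ∧ (e, 0) ∈ G ∧
      z.1 ∈ Icc p q ∧ c ∈ Ioo p q} := by
    intro c
    by_cases h : ∃ p q e, Anch C F p q e ∧ (e, 0) ∈ G ∧ c ∈ Ioo p q
    · obtain ⟨p, q, e, h1, h2, h3⟩ := h
      convert (isClosed_Icc (a := p) (b := q)).prod (isClosed_singleton (x := (0 : ℝ))) using 1
      ext z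
      constructor
      · rintro ⟨z0, p', q', e', k1, -, k3, k4⟩
        obtain ⟨rfl, rfl⟩ := gap_unique h1.1 k1.1 h3 k4
        exact ⟨k3, z0⟩
      · exact fun hz => ⟨hz.2, p, q, e, h1, h2, hz.1, h3⟩
    · convert isClosed_empty
      exact eq_empty_of_forall_notMem fun z ⟨_, p, q, e, k1, k2, _, k4⟩ => h ⟨p, q, e, k1, k2, k4⟩
  rw [← closure_subset_iff_isClosed, closure_union, hG.closure_eq]
  refine union_subset subset_union_left fun z hz => ?_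
  by_cases hzG : z ∈ G
  · exact Or.inl hzG
  have z0 : z.2 = 0 := closure_minimal (fun w hw => hw.1)
    (isClosed_eq continuous_snd continuous_const) hz
  obtain ⟨δ, hδ, hball⟩ := Metric.isOpen_iff.1 hG.isOpen_compl z hzG
  have hz' : z ∈ closure (ball z (δ / 2) ∩ Ext C F G) :=
    isOpen_ball.inter_closure ⟨mem_ball_self (half_pos hδ), hz⟩
  rcases closure_minimal (t := _ ∪ _) (by
      rintro w ⟨hw, w0, p, q, e, k1, k2, k3⟩
      rw [mem_ball, Prod.dist_eq, max_lt_iff, Real.dist_eq, abs_lt] at hw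
      have he : ¬ |e - z.1| < δ := fun c => hball (by
        rw [mem_ball, Prod.dist_eq, z0, dist_self]
        exact max_lt c hδ) k2
      rw [abs_lt, not_and_or, not_lt, not_lt] at he
      rcases he with c | c
      · exact Or.inl ⟨w0, p, q, e, k1, k2, k3,
          by linarith [k1.mem.1.1], by linarith [k3.2, hw.1.1]⟩
      · exact Or.inr ⟨w0, p, q, e, k1, k2, k3,
          by linarith [k3.1, hw.1.2], by linarith [k1.mem.1.2]⟩)
    ((one (z.1 - δ / 2)).union (one (z.1 + δ / 2))) hz' with h | h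
  · obtain ⟨-, p, q, e, k1, k2, k3, -⟩ := h
    exact Or.inr ⟨z0, p, q, e, k1, k2, k3⟩
  · obtain ⟨-, p, q, e, k1, k2, k3, -⟩ := h
    exact Or.inr ⟨z0, p, q, e, k1, k2, k3⟩

namespace Ctx

variable (H : Ctx C F) (hsub : ∀ i, ∀ p ∈ F i, LW C p)
include H hsub

theorem unc {t : ℝ} (ht : t ∈ DD C) : ¬ Cov F t :=
  fun ⟨i, hi⟩ => not_lw_of_DD H.cpt H.sub ht (hsub i _ hi)

theorem free {p q e s : ℝ} (h : Anch C F p q e) (hs : s ∈ Icc p q) (hne : s ≠ e) :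
    ¬ Cov F s ∧ ∀ p' q', Gap C p' q' → s ∈ Icc p' q' → p' = p ∧ q' = q := by
  have hpq := h.1.1
  rcases eq_endpoints_or_mem_Ioo_of_mem_Icc hs with rfl | rfl | hs'
  · have hsrc : Src F 1 s ((s + q) / 2) := by
      rcases h.2 with ⟨a, -⟩ | ⟨-, a⟩
      · exact a
      · exact absurd a.symm hne
    refine ⟨fun ⟨i, hi⟩ => H.not_lw_of_src (Or.inl rfl) (by linarith)
      (fun t t1 t2 => h.1.2.1 ⟨by linarith, by linarith⟩) hsrc (hsub i _ hi), ?_⟩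
    intro p' q' h' hs'
    rcases eq_endpoints_or_mem_Ioo_of_mem_Icc hs' with rfl | rfl | c
    · obtain ⟨t, t1, t2⟩ := exists_between (lt_min hpq h'.1)
      exact gap_unique h.1 h' ⟨t1, t2.trans_le (min_le_left _ _)⟩
        ⟨t1, t2.trans_le (min_le_right _ _)⟩
    · obtain ⟨S, hS, -, -, ⟨a, ha, a1⟩, hn, -⟩ := hsrc (s - p') (by linarith [h'.1])
      have a2 : 1 * s - (s - p') < 1 * a := hn _ ha
      exact absurd (hS.cov ha) (H.unc hsub (h'.2.1 ⟨by linarith, by linarith⟩))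
    · exact absurd (h'.2.1 c) h.1.2.2.1
  · have hsrc : Src F (-1) s ((p + s) / 2) := by
      rcases h.2 with ⟨-, a⟩ | ⟨a, -⟩
      · exact absurd a.symm hne
      · exact (H.src_or hpq h.1.2.1 h.1.2.2.1 h.1.2.2.2 fun t ht => H.unc hsub ht).resolve_left a
    refine ⟨fun ⟨i, hi⟩ => H.not_lw_of_src (Or.inr rfl) (by linarith)
      (fun t t1 t2 => h.1.2.1 ⟨by linarith, by linarith⟩) hsrc (hsub i _ hi), ?_⟩
    intro p' q' h' hs'
    rcases eq_endpoints_or_mem_Ioo_of_mem_Icc hs' with rfl | rfl | c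
    · obtain ⟨S, hS, -, -, ⟨a, ha, a1⟩, hn, -⟩ := hsrc (q' - s) (by linarith [h'.1])
      have a2 : -1 * s - (q' - s) < -1 * a := hn _ ha
      exact absurd (hS.cov ha) (H.unc hsub (h'.2.1 ⟨by linarith, by linarith⟩))
    · obtain ⟨t, t1, t2⟩ := exists_between (max_lt hpq h'.1)
      exact gap_unique h.1 h' ⟨(le_max_left _ _).trans_lt t1, t2⟩
        ⟨(le_max_right _ _).trans_lt t1, t2⟩
    · exact absurd (h'.2.1 c) h.1.2.2.2
  · have hD := h.1.2.1 hs'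
    refine ⟨H.unc hsub hD, fun p' q' h' hs'' => gap_unique h.1 h' hs' ⟨?_, ?_⟩⟩
    · exact lt_of_le_of_ne hs''.1 fun c => h'.2.2.1 (c ▸ hD)
    · exact lt_of_le_of_ne hs''.2 fun c => h'.2.2.2 (c ▸ hD)

theorem absurd_eq [Countable I] (hnt : C.Nontrivial) : False := by
  let A : Type := {e : ℝ // (∃ p q, Anch C F p q e) ∧ ¬ Cov F e}
  have : Countable A := (countable_anch.mono fun e he => he.1 :
    {e : ℝ | (∃ p q, Anch C F p q e) ∧ ¬ Cov F e}.Countable).to_subtype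
  let G : I ⊕ A → Set (ℝ × ℝ) := Sum.elim F fun e => {(e.1, 0)}
  have Gcl : ∀ j, IsClosed (G j) := by
    rintro (i | e)
    · exact H.cl i
    · exact isClosed_singleton
  have Gidx : ∀ j k z, z ∈ G j → z ∈ G k → j = k := by
    rintro (i | e) (i' | e') z h h'
    · rw [H.idx h h']
    · exact absurd ⟨i, (show z = (e'.1, 0) from h') ▸ h⟩ e'.2.2
    · exact absurd ⟨i', (show z = (e.1, 0) from h) ▸ h'⟩ e.2.2
    · have : ((e.1, 0) : ℝ × ℝ) = (e'.1, 0) := (show z = _ from h).symm.trans h'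
      rw [Subtype.ext (Prod.mk.inj this).1]
  have Ganch : ∀ p q e, Anch C F p q e → ∃ j, (e, 0) ∈ G j := by
    intro p q e h
    by_cases c : Cov F e
    · exact let ⟨i, hi⟩ := c; ⟨Sum.inl i, hi⟩
    · exact ⟨Sum.inr ⟨e, ⟨p, q, h⟩, c⟩, rfl⟩
  have Gfree : ∀ p q e s, Anch C F p q e → s ∈ Icc p q → s ≠ e → ∀ j, (s, 0) ∉ G j := by
    rintro p q e s h hs hne (i | e') hj
    · exact (H.free hsub h hs hne).1 ⟨i, hj⟩
    · obtain rfl : s = e'.1 := (Prod.mk.inj (show ((s, 0) : ℝ × ℝ) = _ from hj)).1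
      obtain ⟨p', q', h'⟩ := e'.2.1
      obtain ⟨rfl, rfl⟩ := (H.free hsub h hs hne).2 p' q' h'.1 h'.mem.1
      exact hne (h'.eq h)
  have mixed : ∀ j k z, z ∈ G j → z ∈ Ext C F (G k) → j = k := by
    rintro j k ⟨s, y⟩ h ⟨rfl : y = 0, p, q, e, k1, k2, k3⟩
    by_cases c : s = e
    · exact Gidx j k _ h (c ▸ k2)
    · exact absurd h (Gfree p q e s k1 k3 c j)
  refine Ctx2.absurd_ctx (F := fun j => G j ∪ Ext C F (G j))
    ⟨⟨H.cpt, H.conn, H.sub, fun j => isClosed_ext (Gcl j), fun j k hjk => ?_, fun j => ?_,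
      fun j hj => ?_, fun p hp hl => ?_, fun z hz h0 => ?_⟩, fun {t₁ t₂} h12 h => ?_⟩ hnt
  · refine disjoint_left.2 ?_
    rintro z (h | h) (h' | h')
    · exact hjk (Gidx j k z h h')
    · exact hjk (mixed j k z h h')
    · exact hjk (mixed k j z h' h).symm
    · obtain ⟨z0, p, q, e, k1, k2, k3⟩ := h
      by_cases c : z.1 = e
      · exact hjk (mixed j k z ((Prod.ext c z0 : z = (e, 0)) ▸ k2) h')
      · obtain ⟨-, p', q', e', l1, l2, l3⟩ := h'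
        obtain ⟨rfl, rfl⟩ := (H.free hsub k1 k3 c).2 p' q' l1.1 l3
        exact hjk (Gidx j k _ k2 (l1.eq k1 ▸ l2))
  · rintro z (h | ⟨z0, p, q, e, k1, -, k3⟩)
    · rcases j with i | e
      · exact H.subC i h
      · obtain ⟨p, q, k1⟩ := e.2.1
        exact (show z = (e.1, 0) from h) ▸ gap_sub H.cpt.isClosed H.sub k1.1 k1.mem.1
    · exact (Prod.ext rfl z0 : z = (z.1, 0)) ▸ gap_sub H.cpt.isClosed H.sub k1.1 k3
  · by_cases hD : ∃ t, t ∈ DD C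
    · obtain ⟨t, ht⟩ := hD
      have htG : ((t, 0) : ℝ × ℝ) ∈ G j := (Gcl j).closure_subset (mem_closure_low fun η hη => by
        obtain ⟨z, hz, z1, z2, z3⟩ := above_DD H.sub ht hη
        exact ⟨z, (hj hz).resolve_right fun c => z2.ne' c.1, z1, z2.le, z3⟩)
      rcases j with i | e
      · exact H.unc hsub ht ⟨i, htG⟩
      · obtain rfl : t = e.1 := (Prod.mk.inj (show ((t, 0) : ℝ × ℝ) = _ from htG)).1
        obtain ⟨p, q, k1⟩ := e.2.1
        exact k1.mem.2 ht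
    · have hCG : C ⊆ G j := fun z hz => (hj hz).resolve_right fun ⟨_, p, q, e, k1, _⟩ =>
        hD ⟨(p + q) / 2, k1.1.2.1 ⟨by linarith [k1.1.1], by linarith [k1.1.1]⟩⟩
      rcases j with i | e
      · exact H.proper i hCG
      · obtain ⟨x, hx, y, hy, hxy⟩ := hnt
        exact hxy ((show x = _ from hCG hx).trans (show y = _ from hCG hy).symm)
  · obtain ⟨i, hi⟩ := H.cov p hp hl
    exact ⟨Sum.inl i, Or.inl hi⟩
  · obtain ⟨W, a, b, c, i, hi⟩ := H.loc z hz h0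
    exact ⟨W, a, b, c, Sum.inl i, hi.trans subset_union_left⟩
  · have hsh : Sh C t₁ t₂ := by
      intro η hη
      obtain ⟨S, ⟨j, z, hz, rfl⟩, a, b, c, d⟩ := h η hη
      have hsC : G j ∪ Ext C F (G j) ⊆ C := by
        rintro z (h | ⟨z0, p, q, e, k1, -, k3⟩)
        · rcases j with i | e
          · exact H.subC i h
          · obtain ⟨p, q, k1⟩ := e.2.1
            exact (show z = (e.1, 0) from h) ▸ gap_sub H.cpt.isClosed H.sub k1.1 k1.mem.1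
        · exact (Prod.ext rfl z0 : z = (z.1, 0)) ▸ gap_sub H.cpt.isClosed H.sub k1.1 k3
      exact ⟨_, (connectedComponentIn_subset _ _).trans hsC,
        isCompact_cc (H.cpt.of_isClosed_subset (isClosed_ext (Gcl j)) hsC) z,
        isPreconnected_connectedComponentIn, a, b, c, d⟩
    have hD : ∀ t ∈ Ioo t₁ t₂, t ∈ DD C := fun t ht => ⟨t₁, t₂, ht, hsh⟩
    obtain ⟨p, q, hg, hm⟩ := gap_exists H.cpt.isClosed H.sub
      (hD ((t₁ + t₂) / 2) ⟨by linarith, by linarith⟩)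
    have l1 : p ≤ t₁ := not_lt.1 fun c => hg.2.2.1 (hD p ⟨c, by linarith [hm.1]⟩)
    have l2 : t₂ ≤ q := not_lt.1 fun c => hg.2.2.2 (hD q ⟨by linarith [hm.2], c⟩)
    obtain ⟨e, he⟩ := Anch.exists (F := F) hg
    obtain ⟨j, hj⟩ := Ganch p q e he
    exact ⟨⟨j, Or.inr ⟨rfl, p, q, e, he, hj, l1, h12.le.trans l2⟩⟩,
      ⟨j, Or.inr ⟨rfl, p, q, e, he, hj, l1.trans h12.le, l2⟩⟩⟩

end Ctx

/-- A nondegenerate continuum in the unit square which near each point above the bottom side lies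
in a cross: the set of its local separating points in the sense of Whyburn is not a union of
countably many disjoint closed proper subsets. -/
theorem whyburn_main (hC : IsCompact C) (hCc : IsPreconnected C)
    (hnt : C.Nontrivial) (hb : C ⊆ box)
    (hx : ∀ z ∈ C, 0 < z.2 → ∃ r > 0, ∀ w ∈ C ∩ ball z r, w.1 = z.1 ∨ w.2 = z.2)
    [Countable I] (cl : ∀ i, IsClosed (F i))
    (dis : Pairwise fun i j => Disjoint (F i) (F j)) (sub : ∀ i, F i ⊆ C)
    (proper : ∀ i, ¬ C ⊆ F i) (cov : ∀ p ∈ C, LW C p → ∃ i, p ∈ F i)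
    (hsub : ∀ i, ∀ p ∈ F i, LW C p) : False := by
  refine Ctx.absurd_eq (F := F) ⟨hC, hCc, hb, cl, dis, sub, proper, cov, fun z hz h0 => ?_⟩
    hsub hnt
  obtain ⟨r, hr, h⟩ := hx z hz h0
  obtain ⟨W, h1, h2, -, h3⟩ := star hC hCc hnt cl dis cov hz hr h
  exact ⟨W, h1, h2, h3⟩

end Pool.Agent.MP_a3a891_gt.H72
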