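import Pool.Agent.MP_a3a891_gt.H72.Comp

/-! Shadowed intervals of the bottom side and their source ends. -/

open Set Topology Filter Metric

namespace Pool.Agent.MP_a3a891_gt.H72

open Pool.Agent.MP_a3a891_gt.H97

/-- Subcontinua of `C` pass arbitrarily low over the interval without touching it. -/
def Sh (C : Set (ℝ × ℝ)) (t₁ t₂ : ℝ) : Prop :=
  ∀ η > 0, ∃ M ⊆ C, IsCompact M ∧ IsPreconnected M ∧ (∀ z ∈ M, z.2 < η) ∧
    (∀ t ∈ Ioo t₁ t₂, (t, 0) ∉ M) ∧ (∃ z ∈ M, z.1 ≤ t₁) ∧ ∃ z ∈ M, t₂ ≤ z.1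

/-- The shadowed points of the bottom side. -/
def DD (C : Set (ℝ × ℝ)) : Set ℝ := {t | ∃ t₁ t₂, t ∈ Ioo t₁ t₂ ∧ Sh C t₁ t₂}

variable {C : Set (ℝ × ℝ)}

theorem isOpen_DD : IsOpen (DD C) := by
  refine isOpen_iff_forall_mem_open.2 ?_
  rintro t ⟨t₁, t₂, ht, h⟩
  exact ⟨Ioo t₁ t₂, fun s hs => ⟨t₁, t₂, hs, h⟩, isOpen_Ioo, ht⟩

theorem above_DD (hb : C ⊆ box) {t : ℝ} (ht : t ∈ DD C) {η : ℝ} (hη : 0 < η) :
    ∃ z ∈ C, z.1 = t ∧ 0 < z.2 ∧ z.2 < η := by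
  obtain ⟨t₁, t₂, ht, h⟩ := ht
  obtain ⟨M, hMC, -, hM, hlow, hno, ⟨z, hz, hz1⟩, w, hw, hw1⟩ := h η hη
  obtain ⟨q, hq, hq'⟩ := hM.intermediate_value hz hw continuous_fst.continuousOn
    (show t ∈ Icc z.1 w.1 from ⟨hz1.trans ht.1.le, ht.2.le.trans hw1⟩)
  refine ⟨q, hMC hq, hq', lt_of_le_of_ne (hb (hMC hq)).2.2.1 fun h0 => hno t ht ?_, hlow q hq⟩
  have : q = (t, 0) := Prod.ext hq' h0.symm
  exact this ▸ hq

theorem mem_closure_low {A : Set (ℝ × ℝ)} {t : ℝ}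
    (h : ∀ η > 0, ∃ z ∈ A, z.1 = t ∧ 0 ≤ z.2 ∧ z.2 < η) : ((t, 0) : ℝ × ℝ) ∈ closure A := by
  refine Metric.mem_closure_iff.2 fun η hη => ?_
  obtain ⟨z, hz, h1, h2, h3⟩ := h η hη
  refine ⟨z, hz, ?_⟩
  rw [Prod.dist_eq, h1, dist_self, Real.dist_eq, zero_sub, abs_neg, abs_of_nonneg h2]
  exact max_lt hη h3

theorem mem_of_DD (hC : IsClosed C) (hb : C ⊆ box) {t : ℝ} (ht : t ∈ DD C) :
    ((t, 0) : ℝ × ℝ) ∈ C :=
  hC.closure_subset (mem_closure_low fun _ hη =>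
    let ⟨z, hz, h1, h2, h3⟩ := above_DD hb ht hη; ⟨z, hz, h1, h2.le, h3⟩)

/-- A continuum that is spanned by arbitrarily low continua lies on the bottom side. -/
theorem trap {R : Set (ℝ × ℝ)} (hR : IsCompact R) (hRc : IsPreconnected R) (hRb : R ⊆ box)
    {t : ℝ} (ht : ((t, 0) : ℝ × ℝ) ∈ R)
    (h : ∀ η > 0, ∃ K, IsCompact K ∧ IsPreconnected K ∧ K ⊆ box ∧ Disjoint K R ∧
      (∀ z ∈ K, z.2 < η) ∧ ∃ u ∈ K, ∃ v ∈ K, (u.1 < t ∧ t < v.1 ∨ v.1 < t ∧ t < u.1) ∧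
        (u.2 = 0 ∨ ∀ z ∈ R, z.1 ≠ u.1) ∧ (v.2 = 0 ∨ ∀ z ∈ R, z.1 ≠ v.1)) :
    ∀ z ∈ R, z.2 = 0 := by
  intro z hz
  by_contra hz0
  have hzpos : 0 < z.2 := lt_of_le_of_ne (hRb hz).2.2.1 (Ne.symm hz0)
  obtain ⟨K, hK, hKc, hKb, hd, hlow, u, hu, v, hv, hor, cu, cv⟩ := h z.2 hzpos
  wlog ho : u.1 < t ∧ t < v.1 generalizing u v
  · exact this v hv u hu hor.symm cv cu (hor.resolve_left ho)
  obtain ⟨u1, u2, u3, u4⟩ := hKb hu
  obtain ⟨w1, w2, w3, w4⟩ := hKb hv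
  have p1 : IsPreconnected (K ∪ {u.1} ×ˢ Icc 0 u.2) :=
    hKc.union u hu ⟨rfl, u3, le_rfl⟩ (isPreconnected_singleton.prod isPreconnected_Icc)
  have p2 : IsPreconnected (K ∪ {u.1} ×ˢ Icc 0 u.2 ∪ {v.1} ×ˢ Icc 0 v.2) :=
    p1.union v (Or.inl hv) ⟨rfl, w3, le_rfl⟩ (isPreconnected_singleton.prod isPreconnected_Icc)
  have drop : ∀ y ∈ K, (y.2 = 0 ∨ ∀ z ∈ R, z.1 ≠ y.1) → ∀ q ∈ ({y.1} ×ˢ Icc 0 y.2 : Set (ℝ × ℝ)),
      q ∉ R := by
    rintro y hy (c | c) q hq hq'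
    · have : q = y := Prod.ext hq.1 (by linarith [hq.2.1, hq.2.2])
      exact disjoint_left.1 hd hy (this ▸ hq')
    · exact c q hq' hq.1
  obtain ⟨w, hw, hzw⟩ := higher ((hK.union (isCompact_singleton.prod isCompact_Icc)).union
    (isCompact_singleton.prod isCompact_Icc)) hR p2 hRc
    (by
      rintro q ((hq | hq) | hq)
      · exact hKb hq
      · have e : q.1 = u.1 := hq.1
        exact ⟨e ▸ u1, e ▸ u2, hq.2.1, hq.2.2.trans u4⟩
      · have e : q.1 = v.1 := hq.1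
        exact ⟨e ▸ w1, e ▸ w2, hq.2.1, hq.2.2.trans w4⟩) hRb
    (by
      rw [disjoint_left]
      rintro q ((hq | hq) | hq) hq'
      · exact disjoint_left.1 hd hq hq'
      · exact drop u hu cu q hq hq'
      · exact drop v hv cv q hq hq')
    (a := u.1) (b := v.1) (Or.inl (Or.inr ⟨rfl, le_rfl, u3⟩)) (Or.inr ⟨rfl, le_rfl, w3⟩)
    ht ho.1 ho.2 hz
  rcases hw with (hw | hw) | hw
  · linarith [hlow w hw]
  · linarith [hlow u hu, hw.2.2]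
  · linarith [hlow v hv, hw.2.2]

theorem side {S A B K : Set (ℝ × ℝ)} (hAB : S = A ∪ B) (h1 : Disjoint (closure A) B)
    (h2 : Disjoint A (closure B)) (hK : IsPreconnected K) (hKS : K ⊆ S) {w : ℝ × ℝ} (hw : w ∈ K)
    (hwB : w ∉ B) : K ⊆ A := by
  intro z hz
  by_contra hzA
  have hor : ∀ y ∈ K, y ∈ A ∨ y ∈ B := fun y hy => (hAB ▸ hKS hy : y ∈ A ∪ B)
  obtain ⟨y, hy, ya, yb⟩ := meet_closed hK isClosed_closure isClosed_closure
    (fun y hy => (hor y hy).imp (fun h => subset_closure h) fun h => subset_closure h)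
    ⟨w, hw, subset_closure ((hor w hw).resolve_right hwB)⟩
    ⟨z, hz, subset_closure ((hor z hz).resolve_left hzA)⟩
  rcases hor y hy with h | h
  · exact disjoint_left.1 h2 h yb
  · exact disjoint_left.1 h1 ya h

theorem mem_sq {z : ℝ × ℝ} {t δ : ℝ} (h1 : t - δ ≤ z.1) (h2 : z.1 ≤ t + δ) (h3 : 0 ≤ z.2)
    (h4 : z.2 ≤ δ) : z ∈ closedBall ((t, 0) : ℝ × ℝ) δ := by
  rw [mem_closedBall, Prod.dist_eq, max_le_iff, Real.dist_eq, Real.dist_eq, abs_le, abs_le]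
  exact ⟨⟨by linarith, by linarith⟩, by simp only [sub_zero]; linarith, by simpa using h4⟩

theorem of_sq {z : ℝ × ℝ} {t δ : ℝ} (h : z ∈ closedBall ((t, 0) : ℝ × ℝ) δ) :
    t - δ ≤ z.1 ∧ z.1 ≤ t + δ := by
  rw [mem_closedBall, Prod.dist_eq, max_le_iff, Real.dist_eq, abs_le] at h
  exact ⟨by linarith [h.1.1], by linarith [h.1.2]⟩

theorem far {A B : Set (ℝ × ℝ)} (h2 : Disjoint A (closure B)) {s : ℝ}
    (hs : ((s, 0) : ℝ × ℝ) ∈ A) : ∃ ρ > 0, ∀ w : ℝ × ℝ, w.1 = s → 0 ≤ w.2 → w.2 < ρ → w ∉ B := by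
  by_contra hcon
  push Not at hcon
  exact disjoint_left.1 h2 hs (mem_closure_low fun η hη =>
    let ⟨w, a, b, c, d⟩ := hcon η hη; ⟨w, d, a, b, c⟩)

/-- A shadowed point is not a local separating point. -/
theorem not_lw_of_DD (hC : IsCompact C) (hb : C ⊆ box) {t : ℝ} (ht : t ∈ DD C) :
    ¬ LW C (t, 0) := by
  rintro ⟨V, hV, hp, A, B, hAB, h1, h2, hA, hB⟩
  have htC := mem_of_DD hC.isClosed hb ht
  obtain ⟨t₁, t₂, htt, hsh⟩ := ht
  obtain ⟨δ₀, hδ₀, hδV⟩ := Metric.nhds_basis_closedBall.mem_iff.1 (hV.mem_nhds hp)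
  obtain ⟨δ, hδ, d0, d1, d2⟩ : ∃ δ > 0, δ ≤ δ₀ ∧ t₁ < t - δ ∧ t + δ < t₂ :=
    ⟨min δ₀ (min ((t - t₁) / 2) ((t₂ - t) / 2)),
      lt_min hδ₀ (lt_min (by linarith [htt.1]) (by linarith [htt.2])), min_le_left _ _,
      by linarith [min_le_right δ₀ (min ((t - t₁) / 2) ((t₂ - t) / 2)),
        min_le_left ((t - t₁) / 2) ((t₂ - t) / 2), htt.1],
      by linarith [min_le_right δ₀ (min ((t - t₁) / 2) ((t₂ - t) / 2)),
        min_le_right ((t - t₁) / 2) ((t₂ - t) / 2), htt.2]⟩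
  have hsq : closedBall ((t, 0) : ℝ × ℝ) δ ⊆ V := (closedBall_subset_closedBall d0).trans hδV
  have hl : ((t - δ, 0) : ℝ × ℝ) ∈ A ∪ B := by
    rw [← hAB]
    exact ⟨⟨mem_of_DD hC.isClosed hb ⟨t₁, t₂, ⟨d1, by linarith⟩, hsh⟩,
      hsq (mem_sq le_rfl (by simp only; linarith) le_rfl hδ.le)⟩, by simp [hδ.ne']⟩
  wlog hlA : ((t - δ, 0) : ℝ × ℝ) ∈ A generalizing A B
  · exact this B A (by rwa [union_comm]) h2.symm h1.symm hB hA (by rwa [union_comm])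
      (hl.resolve_left hlA)
  obtain ⟨ρ, hρ, hfar⟩ := far h2 hlA
  have piece : ∀ η > 0, ∃ K, IsCompact K ∧ IsPreconnected K ∧ K ⊆ C ∧ K ⊆ A ∧
      (∀ z ∈ K, z.2 < η) ∧ (∃ u ∈ K, u.1 = t - δ) ∧ ∃ v ∈ K, v.1 = t + δ := by
    intro η hη
    obtain ⟨M, hMC, hM, hMc, hlow, hno, ⟨z, hz, hz1⟩, w, hw, hw1⟩ :=
      hsh (min η (min δ ρ)) (by positivity)
    obtain ⟨K, hKM, hK, hKc, hst, ⟨u, hu, hu1⟩, hv⟩ := strip_piece hM hMc continuous_fst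
      (s₁ := t - δ) (s₂ := t + δ) (by linarith) hz hw (by linarith) (by linarith)
    have m1 := min_le_left η (min δ ρ)
    have m2 := (min_le_right η (min δ ρ)).trans (min_le_left δ ρ)
    have m3 := (min_le_right η (min δ ρ)).trans (min_le_right δ ρ)
    refine ⟨K, hK, hKc, hKM.trans hMC, side hAB h1 h2 hKc (fun q hq => ⟨⟨hMC (hKM hq),
      hsq (mem_sq (hst q hq).1 (hst q hq).2 (hb (hMC (hKM hq))).2.2.1
        (by linarith [hlow q (hKM hq)]))⟩, fun e => hno t htt (e ▸ hKM hq)⟩) hu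
      (hfar u hu1 (hb (hMC (hKM hu))).2.2.1 (by linarith [hlow u (hKM hu)])),
      fun q hq => by linarith [hlow q (hKM hq)], ⟨u, hu, hu1⟩, hv⟩
  obtain ⟨R, hR, hRc, hpR, hRb, hRB, y, hy, hyp⟩ :=
    side_continuum hC hV htC hp hAB h1 h2 hB (half_pos hδ)
  have hsubS : ∀ z ∈ A ∪ B, z ∈ (C ∩ V) \ {((t, 0) : ℝ × ℝ)} := fun z hz => hAB ▸ hz
  have hRC : R ⊆ C := fun z hz => by
    rcases hRB hz with e | e
    · exact e ▸ htC
    · exact (hsubS z (Or.inr e)).1.1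
  have hflat := trap hR hRc (hRC.trans hb) hpR fun η hη => by
    obtain ⟨K, hK, hKc, hKC, hKA, hlow, ⟨u, hu, hu1⟩, v, hv, hv1⟩ := piece η hη
    refine ⟨K, hK, hKc, hKC.trans hb, disjoint_left.2 fun q hq hq' => ?_, hlow, u, hu, v, hv,
      Or.inl ⟨by linarith, by linarith⟩, Or.inr fun z hz => ?_, Or.inr fun z hz => ?_⟩
    · rcases hRB hq' with e | e
      · exact (hsubS q (Or.inl (hKA hq))).2 e
      · exact disjoint_left.1 h1 (subset_closure (hKA hq)) e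
    · intro e
      linarith [(of_sq (hRb hz)).1]
    · intro e
      linarith [(of_sq (hRb hz)).2]
  have hyB : y ∈ B := (hRB hy).resolve_left hyp
  have ey : y = (y.1, 0) := Prod.ext rfl (hflat y hy)
  refine disjoint_left.1 h1 (ey ▸ mem_closure_low fun η hη => ?_) hyB
  obtain ⟨K, -, hKc, hKC, hKA, hlow, ⟨u, hu, hu1⟩, v, hv, hv1⟩ := piece η hη
  obtain ⟨q, hq, hq'⟩ := hKc.intermediate_value hu hv continuous_fst.continuousOn
    (show y.1 ∈ Icc u.1 v.1 from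
      ⟨by linarith [(of_sq (hRb hy)).1], by linarith [(of_sq (hRb hy)).2]⟩)
  exact ⟨q, hKA hq, hq', (hb (hKC hq)).2.2.1, hlow q hq⟩

/-- Low components leave the bottom side just outside `e` (on the side `-σ`) and pass over `m`. -/
def Src {I : Type} (F : I → Set (ℝ × ℝ)) (σ e m : ℝ) : Prop :=
  ∀ ε > 0, ∃ S, Comp F S ∧ (∀ z ∈ S, z.2 < ε) ∧ (e, 0) ∉ S ∧ (∃ a, (a, 0) ∈ S ∧ σ * a < σ * e) ∧
    (∀ z ∈ S, σ * e - ε < σ * z.1) ∧ ∃ z ∈ S, z.1 = m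

namespace Ctx

variable {I : Type} {F : I → Set (ℝ × ℝ)} (H : Ctx C F)
include H

/-- A source end is not a local separating point. -/
theorem not_lw_of_src {σ e m : ℝ} (hσ : σ = 1 ∨ σ = -1) (hm : σ * e < σ * m)
    (hD : ∀ s, σ * e < σ * s → σ * s ≤ σ * m → s ∈ DD C) (hs : Src F σ e m) : ¬ LW C (e, 0) := by
  rintro ⟨V, hV, hp, A, B, hAB, h1, h2, hA, hB⟩
  have heC : ((e, 0) : ℝ × ℝ) ∈ C :=
    (connectedComponentIn_nonempty_iff.1 (hA.mono inter_subset_right)).1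
  have hσ2 : σ * σ = 1 := by rcases hσ with rfl | rfl <;> norm_num
  obtain ⟨δ₀, hδ₀, hδV⟩ := Metric.nhds_basis_closedBall.mem_iff.1 (hV.mem_nhds hp)
  obtain ⟨δ, hδ, d0, d1⟩ : ∃ δ > 0, δ ≤ δ₀ ∧ σ * e + δ ≤ σ * m :=
    ⟨min δ₀ (σ * m - σ * e), lt_min hδ₀ (by linarith), min_le_left _ _,
      by linarith [min_le_right δ₀ (σ * m - σ * e)]⟩
  have hsq : closedBall ((e, 0) : ℝ × ℝ) δ ⊆ V := (closedBall_subset_closedBall d0).trans hδV
  have hσδ : σ * (e + σ * δ) = σ * e + δ := by linear_combination δ * hσ2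
  have hl : ((e + σ * δ, 0) : ℝ × ℝ) ∈ A ∪ B := by
    rw [← hAB]
    refine ⟨⟨mem_of_DD H.cpt.isClosed H.sub (hD _ (by linarith) (by linarith)),
      hsq (mem_sq ?_ ?_ le_rfl hδ.le)⟩, fun h => ?_⟩
    · rcases hσ with rfl | rfl <;> simp only <;> linarith
    · rcases hσ with rfl | rfl <;> simp only <;> linarith
    · have : e + σ * δ = e := congrArg Prod.fst h
      rw [this] at hσδ
      linarith
  wlog hlA : ((e + σ * δ, 0) : ℝ × ℝ) ∈ A generalizing A B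
  · exact this B A (by rwa [union_comm]) h2.symm h1.symm hB hA (by rwa [union_comm])
      (hl.resolve_left hlA)
  obtain ⟨ρ, hρ, hfar⟩ := far h2 hlA
  have piece : ∀ η > 0, ∃ K, IsCompact K ∧ IsPreconnected K ∧ K ⊆ C ∧ K ⊆ A ∧
      (∀ z ∈ K, z.2 < η) ∧ (∃ a, (a, 0) ∈ K ∧ σ * a < σ * e ∧ σ * e - η < σ * a) ∧
      ∃ v ∈ K, v.1 = e + σ * δ := by
    intro η hη
    obtain ⟨S, hS, hlow, heS, ⟨a, ha, hae⟩, hnear, w, hw, hw1⟩ :=
      hs (min η (min δ ρ)) (by positivity)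
    obtain ⟨K, hKS, hK, hKc, haK, hle, v, hv, hv1⟩ := half_piece (H.ccpt hS) hS.pre
      (π := fun z : ℝ × ℝ => σ * z.1) (by fun_prop) (s := σ * e + δ) ha hw
      (by simp only; linarith) (by simp only [hw1]; linarith)
    have m1 := min_le_left η (min δ ρ)
    have m2 := (min_le_right η (min δ ρ)).trans (min_le_left δ ρ)
    have m3 := (min_le_right η (min δ ρ)).trans (min_le_right δ ρ)
    have hv2 : v.1 = e + σ * δ := by
      have : σ * v.1 = σ * e + δ := hv1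
      linear_combination σ * this - (v.1 - e) * hσ2
    have hKC : K ⊆ C := hKS.trans (H.csub hS)
    refine ⟨K, hK, hKc, hKC, side hAB h1 h2 hKc (fun q hq => ⟨⟨hKC hq, hsq (mem_sq ?_ ?_
      (H.sub (hKC hq)).2.2.1 (by linarith [hlow q (hKS hq)]))⟩, fun c => heS (c ▸ hKS hq)⟩) hv
      (hfar v hv2 (H.sub (hKC hv)).2.2.1 (by linarith [hlow v (hKS hv)])),
      fun q hq => by linarith [hlow q (hKS hq)],
      ⟨a, haK, hae, by linarith [hnear _ ha]⟩, v, hv, hv2⟩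
    · have k1 : σ * q.1 ≤ σ * e + δ := hle q hq
      have k2 := hnear q (hKS hq)
      rcases hσ with rfl | rfl <;> linarith
    · have k1 : σ * q.1 ≤ σ * e + δ := hle q hq
      have k2 := hnear q (hKS hq)
      rcases hσ with rfl | rfl <;> linarith
  obtain ⟨R, hR, hRc, hpR, hRb, hRB, y, hy, hyp⟩ :=
    side_continuum H.cpt hV heC hp hAB h1 h2 hB (half_pos hδ)
  have hsubS : ∀ z ∈ A ∪ B, z ∈ (C ∩ V) \ {((e, 0) : ℝ × ℝ)} := fun z hz => hAB ▸ hz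
  have hRC : R ⊆ C := fun z hz => by
    rcases hRB hz with c | c
    · exact c ▸ heC
    · exact (hsubS z (Or.inr c)).1.1
  have hAR : ∀ q ∈ A, q ∉ R := fun q hq hq' => by
    rcases hRB hq' with c | c
    · exact (hsubS q (Or.inl hq)).2 c
    · exact disjoint_left.1 h1 (subset_closure hq) c
  have hflat := trap hR hRc (hRC.trans H.sub) hpR fun η hη => by
    obtain ⟨K, hK, hKc, hKC, hKA, hlow, ⟨a, ha, a1, -⟩, v, hv, hv1⟩ := piece η hη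
    refine ⟨K, hK, hKc, hKC.trans H.sub, disjoint_left.2 fun q hq => hAR q (hKA hq), hlow,
      (a, 0), ha, v, hv, ?_, Or.inl rfl, Or.inr fun z hz c => ?_⟩
    · rcases hσ with rfl | rfl
      · exact Or.inl ⟨by simp only; linarith, by linarith⟩
      · exact Or.inr ⟨by linarith, by simp only; linarith⟩
    · have := of_sq (hRb hz)
      rcases hσ with rfl | rfl <;> linarith [this.1, this.2]
  have hyB : y ∈ B := (hRB hy).resolve_left hyp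
  have ey : y = (y.1, 0) := Prod.ext rfl (hflat y hy)
  have hyq := of_sq (hRb hy)
  rcases lt_trichotomy (σ * y.1) (σ * e) with c | c | c
  · obtain ⟨K, -, -, -, hKA, -, ⟨a, ha, a1, a2⟩, -⟩ := piece (σ * e - σ * y.1) (by linarith)
    obtain ⟨q, hq, hq'⟩ := hRc.intermediate_value hy hpR
      (f := fun z : ℝ × ℝ => σ * z.1) (by fun_prop)
      (show σ * a ∈ Icc (σ * y.1) (σ * e) from ⟨by linarith, a1.le⟩)
    have : q = (a, 0) := Prod.ext (by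
      have : σ * q.1 = σ * a := hq'
      linear_combination σ * this - (q.1 - a) * hσ2) (hflat q hq)
    exact hAR _ (hKA ha) (this ▸ hq)
  · exact hyp (Prod.ext (by linear_combination σ * c - (y.1 - e) * hσ2) (hflat y hy))
  · refine disjoint_left.1 h1 (ey ▸ mem_closure_low fun η hη => ?_) hyB
    obtain ⟨K, -, hKc, hKC, hKA, hlow, ⟨a, ha, a1, -⟩, v, hv, hv1⟩ := piece η hη
    obtain ⟨q, hq, hq'⟩ := hKc.intermediate_value ha hv
      (f := fun z : ℝ × ℝ => σ * z.1) (by fun_prop)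
      (show σ * y.1 ∈ Icc (σ * a) (σ * v.1) from ⟨by linarith, by
        rw [hv1, hσδ]
        rcases hσ with rfl | rfl <;> linarith [hyq.1, hyq.2]⟩)
    refine ⟨q, hKA hq, ?_, (H.sub (hKC hq)).2.2.1, hlow q hq⟩
    have : σ * q.1 = σ * y.1 := hq'
    linear_combination σ * this - (q.1 - y.1) * hσ2

theorem src_of {σ e m : ℝ} (hσ : σ = 1 ∨ σ = -1) (hm : σ * e < σ * m) (he : e ∉ DD C)
    (hD : ∀ s, σ * e < σ * s → σ * s ≤ σ * m → ¬ Cov F s)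
    (h : ∀ η > 0, ∃ S, Comp F S ∧ (∀ z ∈ S, z.2 < η) ∧ (e, 0) ∉ S ∧
      (∃ a, (a, 0) ∈ S ∧ σ * a < σ * e) ∧ ∃ z ∈ S, z.1 = m) : Src F σ e m := by
  intro ε hε
  by_contra hcon
  have hσ2 : σ * σ = 1 := by rcases hσ with rfl | rfl <;> norm_num
  have long : ∀ η > 0, ∃ S, Comp F S ∧ (∀ z ∈ S, z.2 < η) ∧ (∃ z ∈ S, σ * z.1 ≤ σ * e - ε) ∧
      ∃ z ∈ S, z.1 = m := by
    intro η hη
    obtain ⟨S, hS, hlow, heS, ha, hz⟩ := h (min η ε) (lt_min hη hε)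
    refine ⟨S, hS, fun z hz => (hlow z hz).trans_le (min_le_left _ _), ?_, hz⟩
    by_contra hn
    push Not at hn
    exact hcon ⟨S, hS, fun z hz => (hlow z hz).trans_le (min_le_right _ _), heS, ha, hn, hz⟩
  have piece : ∀ η > 0, ∃ K ⊆ C, IsCompact K ∧ IsPreconnected K ∧ (∀ z ∈ K, z.2 < η) ∧
      (∀ t, (t, 0) ∉ K) ∧ (∃ u ∈ K, σ * u.1 = σ * e - ε / 2) ∧
      ∃ v ∈ K, σ * v.1 = (σ * e + σ * m) / 2 := by
    intro η hη
    obtain ⟨S, hS, hlow, ⟨z, hz, hz1⟩, w, hw, hw1⟩ := long η hη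
    obtain ⟨K, hKS, hK, hKc, hst, hu, v, hv, hv1⟩ := strip_piece (H.ccpt hS) hS.pre
      (π := fun z : ℝ × ℝ => σ * z.1) (by fun_prop) (s₁ := σ * e - ε / 2)
      (s₂ := (σ * e + σ * m) / 2) (by linarith) hz hw (by linarith)
      (by simp only [hw1]; linarith)
    have hKC : K ⊆ C := hKS.trans (H.csub hS)
    refine ⟨K, hKC, hK, hKc, fun q hq => hlow q (hKS hq), fun t ht => ?_, hu, v, hv, hv1⟩
    have hv1' : σ * v.1 = (σ * e + σ * m) / 2 := hv1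
    have hv0 : v.2 ≠ 0 := fun c => hD v.1 (by linarith) (by linarith)
      (hS.cov (show (v.1, 0) ∈ S from c ▸ hKS hv))
    have hvpos : 0 < v.2 := lt_of_le_of_ne (H.sub (hKC hv)).2.2.1 hv0.symm
    refine hv0 (trap hK hKc (hKC.trans H.sub) ht (fun η' hη' => ?_) v hv)
    obtain ⟨S', hS', hlow', ⟨z', hz', hz1'⟩, w', hw', hw1'⟩ := long (min η' v.2) (lt_min hη' hvpos)
    have hne : S' ≠ S := fun c =>
      absurd (hlow' v (c ▸ hKS hv)) (not_lt.2 (min_le_right _ _))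
    have t1 : σ * e - ε / 2 ≤ σ * t := (hst _ ht).1
    have t2 : σ * t ≤ (σ * e + σ * m) / 2 := (hst _ ht).2
    refine ⟨S', H.ccpt hS', hS'.pre, (H.csub hS').trans H.sub,
      (H.cdis hS' hS hne).mono_right hKS, fun q hq => (hlow' q hq).trans_le (min_le_left _ _),
      z', hz', w', hw', ?_, Or.inr fun q hq c => ?_, Or.inr fun q hq c => ?_⟩
    · rw [hw1']
      rcases hσ with rfl | rfl
      · exact Or.inl ⟨by linarith, by linarith⟩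
      · exact Or.inr ⟨by linarith, by linarith⟩
    · have : σ * e - ε / 2 ≤ σ * q.1 := (hst q hq).1
      rw [c] at this
      linarith
    · have : σ * q.1 ≤ (σ * e + σ * m) / 2 := (hst q hq).2
      rw [c, hw1'] at this
      linarith
  apply he
  rcases hσ with rfl | rfl
  · refine ⟨e - ε / 2, (e + m) / 2, ⟨by linarith, by linarith⟩, fun η hη => ?_⟩
    obtain ⟨K, k0, k1, k2, k3, k4, ⟨u, hu, hu1⟩, v, hv, hv1⟩ := piece η hη
    exact ⟨K, k0, k1, k2, k3, fun t _ => k4 t, ⟨u, hu, by linarith⟩, v, hv, by linarith⟩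
  · refine ⟨(e + m) / 2, e + ε / 2, ⟨by linarith, by linarith⟩, fun η hη => ?_⟩
    obtain ⟨K, k0, k1, k2, k3, k4, ⟨u, hu, hu1⟩, v, hv, hv1⟩ := piece η hη
    exact ⟨K, k0, k1, k2, k3, fun t _ => k4 t, ⟨v, hv, by linarith⟩, u, hu, by linarith⟩

/-- A maximal shadowed interval has a source end. -/
theorem src_or {p q : ℝ} (hpq : p < q) (hD : Ioo p q ⊆ DD C) (hp : p ∉ DD C) (hq : q ∉ DD C)
    (hunc : ∀ t ∈ DD C, ¬ Cov F t) : Src F 1 p ((p + q) / 2) ∨ Src F (-1) q ((p + q) / 2) := by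
  set m := (p + q) / 2 with hm
  have hmD : m ∈ DD C := hD ⟨by linarith, by linarith⟩
  have hN : ∀ s : ℝ, IsClosed (⋃₀ {S | Comp F S ∧ ((s, 0) : ℝ × ℝ) ∈ S}) := fun s => by
    rw [sUnion_eq_biUnion]
    exact (Set.Subsingleton.finite fun S hS S' hS' =>
      H.ceq hS.1 hS'.1 hS.2 hS'.2).isClosed_biUnion fun S hS => (H.ccpt hS.1).isClosed
  have hmN : ∀ G : Set (Set (ℝ × ℝ)), (∀ S ∈ G, Comp F S) → ((m, 0) : ℝ × ℝ) ∉ ⋃₀ G :=
    fun G hG ⟨S, hS, h⟩ => hunc m hmD ((hG S hS).cov h)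
  obtain ⟨ρ, hρ, hball⟩ := Metric.isOpen_iff.1 ((hN p).union (hN q)).isOpen_compl (m, 0)
    (by
      rintro (h | h)
      · exact hmN _ (fun S hS => hS.1) h
      · exact hmN _ (fun S hS => hS.1) h)
  obtain ⟨-, -, hlow⟩ := H.low_near
    (G := {S | Comp F S ∧ (∃ z ∈ S, z.1 = m) ∧ (p, 0) ∉ S ∧ (q, 0) ∉ S}) (fun S hS => hS.1)
    (q := (m, 0)) (mem_closure_low fun η hη => by
      obtain ⟨z, hz, z1, z2, z3⟩ := above_DD H.sub hmD (lt_min hη hρ)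
      obtain ⟨S, W, hS, -, hzW, hs⟩ := H.up hz z2
      have hzS := hs ⟨hz, hzW⟩
      have hzb : z ∈ ball ((m, 0) : ℝ × ℝ) ρ := by
        rw [mem_ball, Prod.dist_eq, z1, dist_self, Real.dist_eq, sub_zero, abs_of_pos z2]
        exact max_lt hρ (z3.trans_le (min_le_right _ _))
      exact ⟨z, ⟨S, ⟨hS, ⟨z, hzS, z1⟩, fun h => hball hzb (Or.inl ⟨S, ⟨hS, h⟩, hzS⟩),
        fun h => hball hzb (Or.inr ⟨S, ⟨hS, h⟩, hzS⟩)⟩, hzS⟩, z1, z2.le,
        z3.trans_le (min_le_left _ _)⟩) (hmN _ fun S hS => hS.1)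
  by_cases hl : ∀ η > 0, ∃ S, Comp F S ∧ (∀ z ∈ S, z.2 < η) ∧ (p, 0) ∉ S ∧
      (∃ a, (a, 0) ∈ S ∧ 1 * a < 1 * p) ∧ ∃ z ∈ S, z.1 = m
  · exact Or.inl (H.src_of (Or.inl rfl) (by linarith) hp
      (fun s s1 s2 => hunc s (hD ⟨by linarith, by linarith⟩)) hl)
  refine Or.inr (H.src_of (Or.inr rfl) (by linarith) hq
    (fun s s1 s2 => hunc s (hD ⟨by linarith, by linarith⟩)) fun η hη => ?_)
  obtain ⟨η₁, hη₁⟩ := not_forall.1 hl
  obtain ⟨hpos, hno⟩ := Classical.not_imp.1 hη₁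
  obtain ⟨S, ⟨hS, hz, hpS, hqS⟩, hlo, -⟩ := hlow (min η η₁) (lt_min hη hpos) 1 one_pos
  obtain ⟨a, ha⟩ := H.meetJ hS
  refine ⟨S, hS, fun z hz => (hlo z hz).trans_le (min_le_left _ _), hqS, ⟨a, ha, ?_⟩, hz⟩
  have n1 : ¬ a < p := fun c => hno ⟨S, hS, fun z hz => (hlo z hz).trans_le (min_le_right _ _),
    hpS, ⟨a, ha, by linarith⟩, hz⟩
  have n2 : p < a := lt_of_le_of_ne (not_lt.1 n1) fun c => hpS (c ▸ ha)
  have n3 : ¬ a < q := fun c => hunc a (hD ⟨n2, c⟩) (hS.cov ha)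
  have n4 : q < a := lt_of_le_of_ne (not_lt.1 n3) fun c => hqS (c ▸ ha)
  linarith

end Ctx

end Pool.Agent.MP_a3a891_gt.H72
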